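import Pool.Agent.H814Z.Br.Defs
import Pool.Agent.H502.BkFinal
set_option autoImplicit false

namespace Pool.Agent.H814Z.Br

open Pool.Agent.H502.Bk Function

/-- idempotents commute -/
def IdComm (S : Type) [Semigroup S] : Prop := ∀ e f : S, e * e = e → f * f = f → e * f = f * e

theorem idComm_of_inverse {S : Type} [Semigroup S] (h : IsInverseSg S) : IdComm S := by
  have key : ∀ e f : S, e * e = e → f * f = f → (e * f) * (e * f) = e * f := by
    intro e f he hf
    obtain ⟨x, ⟨hx1, hx2⟩, hxu⟩ := h (e * f)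
    have he' : ∀ y, e * (e * y) = e * y := fun y => by rw [← mul_assoc, he]
    have hf' : ∀ y, f * (f * y) = f * y := fun y => by rw [← mul_assoc, hf]
    have h1 : e * (f * (x * (e * f))) = e * f := by simpa only [mul_assoc] using hx1
    have h2 : ∀ y, x * (e * (f * (x * y))) = x * y := fun y => by
      have := congrArg (· * y) hx2
      simpa only [mul_assoc] using this
    have h3 : f * x * e = x := by
      apply hxu
      constructor
      · simp only [mul_assoc, he', hf']
        exact h1
      · simp only [mul_assoc, he', hf']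
        rw [h2]
    have h4 : x * x = x := by
      calc x * x = (f * x * e) * (f * x * e) := by rw [h3]
        _ = f * (x * (e * (f * (x * e)))) := by simp only [mul_assoc]
        _ = f * x * e := by rw [h2, mul_assoc]
        _ = x := h3
    obtain ⟨y, -, hyu⟩ := h x
    have h5 : e * f = y := hyu _ ⟨hx2, hx1⟩
    have h6 : x = y := hyu _ ⟨by rw [h4, h4], by rw [h4, h4]⟩
    rw [h5, ← h6, h4]
  intro e f he hf
  have h1 := key e f he hf
  have h2 := key f e hf he
  have he' : ∀ y, e * (e * y) = e * y := fun y => by rw [← mul_assoc, he]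
  have hf' : ∀ y, f * (f * y) = f * y := fun y => by rw [← mul_assoc, hf]
  obtain ⟨y, -, hyu⟩ := h (e * f)
  have h3 : e * f = y := hyu _ ⟨by rw [h1, h1], by rw [h1, h1]⟩
  have h4 : f * e = y := by
    apply hyu
    constructor
    · simp only [mul_assoc, he', hf'] at h1 ⊢
      exact h1
    · simp only [mul_assoc, he', hf'] at h2 ⊢
      exact h2
  rw [h3, h4]

theorem inv_unique {S : Type} [Semigroup S] (h : IdComm S) {a b c : S}
    (hb1 : a * b * a = a) (hb2 : b * a * b = b) (hc1 : a * c * a = a) (hc2 : c * a * c = c) :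
    b = c := by
  have i1 : (b * a) * (b * a) = b * a := by rw [← mul_assoc, hb2]
  have i2 : (c * a) * (c * a) = c * a := by rw [← mul_assoc, hc2]
  have i3 : (a * b) * (a * b) = a * b := by rw [← mul_assoc, hb1]
  have i4 : (a * c) * (a * c) = a * c := by rw [← mul_assoc, hc1]
  have e1 : b = c * a * b := by
    calc b = b * (a * c * a) * b := by rw [hc1, hb2]
      _ = ((b * a) * (c * a)) * b := by simp only [mul_assoc]
      _ = ((c * a) * (b * a)) * b := by rw [h _ _ i1 i2]
      _ = c * (a * b * a) * b := by simp only [mul_assoc]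
      _ = c * a * b := by rw [hb1]
  have e2 : c = c * a * b := by
    calc c = c * (a * b * a) * c := by rw [hb1, hc2]
      _ = c * ((a * b) * (a * c)) := by simp only [mul_assoc]
      _ = c * ((a * c) * (a * b)) := by rw [h _ _ i3 i4]
      _ = (c * a * c) * a * b := by simp only [mul_assoc]
      _ = c * a * b := by rw [hc2]
  exact e1.trans e2.symm

theorem zs_regular {S : Type} [Semigroup S] [Finite S] {z : S} (h : ZS z) (a : S) :
    ∃ b, a * b * a = a ∧ b * a * b = b := by
  by_cases ha : a = z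
  · exact ⟨z, by rw [ha, (h.1 z).1, (h.1 z).1], by rw [(h.1 a).1, (h.1 z).1]⟩
  obtain ⟨x, y, hxy⟩ := h.2.2 a ha a
  have h1 : a * y ≠ z := h.mul_right_ne (a := x) (by rw [← mul_assoc, hxy]; exact ha)
  have h2 : x * a ≠ z := h.mul_left_ne (b := y) (by rw [hxy]; exact ha)
  -- an element `u` with `a * u * a ≠ z`
  have hy : y ≠ z := h.mul_right_ne h1
  have hx : x ≠ z := h.mul_left_ne h2
  obtain ⟨u, hu, hu1, hu2⟩ := h.meet hy hx
  have h3 : a * u ≠ z := h.ne_of_rr hu1.symm h1
  have h4 : u * a ≠ z := h.ne_of_ll hu2.symm h2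
  have h5 : a * (u * a) ≠ z := by rw [← mul_assoc]; exact h.cat h3 h4
  obtain ⟨k, hk⟩ := exists_idem_npw (u * a)
  have h6 : a * npw (u * a) k = a := h.pump h5 (Or.inr ⟨u, rfl⟩) hk
  have h7 : npw (u * a) k = npw (u * a) (k + k) * u * a := by
    rw [← hk, npw_add, mul_assoc]
    rfl
  have h8 : a * (npw (u * a) (k + k) * u) * a = a := by
    rw [mul_assoc, ← h7, h6]
  refine ⟨(npw (u * a) (k + k) * u) * a * (npw (u * a) (k + k) * u), ?_, ?_⟩
  · generalize npw (u * a) (k + k) * u = b at h8
    calc a * (b * a * b) * a = (a * b * a) * b * a := by simp only [mul_assoc]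
      _ = a := by rw [h8, h8]
  · generalize npw (u * a) (k + k) * u = b at h8
    calc b * a * b * a * (b * a * b) = b * ((a * b * a) * b * a) * b := by simp only [mul_assoc]
      _ = b * a * b := by rw [h8, h8]

theorem inverse_of_idComm {S : Type} [Semigroup S] [Finite S] {z : S} (h : ZS z)
    (hc : IdComm S) : IsInverseSg S := by
  intro a
  obtain ⟨b, hb1, hb2⟩ := zs_regular h a
  exact ⟨b, ⟨hb1, hb2⟩, fun c hc' => inv_unique hc hc'.1 hc'.2 hb1 hb2⟩

theorem mem_BrO {V : PV} {S : FinSg} : S ∈ BrO V ↔ S ∈ ZSO V ∧ IdComm S := by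
  constructor
  · rintro ⟨h1, h2, h3⟩
    exact ⟨⟨h1, h3⟩, idComm_of_inverse h2⟩
  · rintro ⟨⟨h1, h3⟩, h2⟩
    obtain ⟨z, hz⟩ := zs_of_zeroSimple h1
    exact ⟨h1, inverse_of_idComm hz h2, h3⟩

theorem IdComm.inj {A B : Type} [Semigroup A] [Semigroup B] (f : A →ₙ* B) (hf : Injective f)
    (h : IdComm B) : IdComm A := by
  intro e e' he he'
  apply hf
  rw [map_mul, map_mul]
  exact h _ _ (by rw [← map_mul, he]) (by rw [← map_mul, he'])

theorem npw_of_idem {A : Type} [Semigroup A] {e : A} (he : e * e = e) (k : ℕ) : npw e k = e := by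
  induction k with
  | zero => rfl
  | succ k ih =>
    show npw e k * e = e
    rw [ih, he]

theorem IdComm.quot {A B : Type} [Semigroup A] [Semigroup B] [Finite A] (f : A →ₙ* B)
    (hf : Surjective f) (h : IdComm A) : IdComm B := by
  have key : ∀ e : B, e * e = e → ∃ x : A, x * x = x ∧ f x = e := by
    intro e he
    obtain ⟨a, rfl⟩ := hf e
    obtain ⟨k, hk⟩ := exists_idem_npw a
    exact ⟨npw a k, hk, by rw [map_npw, npw_of_idem he]⟩
  intro e e' he he'
  obtain ⟨x, hx, rfl⟩ := key e he
  obtain ⟨y, hy, rfl⟩ := key e' he'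
  rw [← map_mul, ← map_mul, h x y hx hy]

theorem IdComm.pi {ι : Type} (T : ι → Type) [∀ i, Semigroup (T i)] (h : ∀ i, IdComm (T i)) :
    IdComm (∀ i, T i) := by
  intro e f he hf
  funext i
  exact h i _ _ (congrFun he i) (congrFun hf i)

theorem IsoC_BrO (V : PV) : IsoC (BrO V) := by
  rintro A hA B ⟨e⟩
  rw [mem_BrO] at hA ⊢
  exact ⟨IsoC_ZSO V A hA.1 B ⟨e⟩, IdComm.inj e.symm.toMulHom e.symm.injective hA.2⟩

/-- groupoid coordinates in a finite Brandt semigroup -/
theorem br_coord (V : PV) {C : Type} [Semigroup C] [Finite C] {z : C} (h : ZS z)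
    (hC : AllSub V C) (hc : IdComm C) :
    ∃ (G : Type) (_ : Group G), V.mem G ∧ ∃ (γ : C → G) (sr tg : C → C),
      (∀ a b, a ≠ z → b ≠ z → (a * b ≠ z ↔ tg a = sr b)) ∧
      (∀ a b, a * b ≠ z → sr (a * b) = sr a ∧ tg (a * b) = tg b ∧ γ (a * b) = γ a * γ b) ∧
      ∀ a b, a ≠ z → b ≠ z → sr a = sr b → tg a = tg b → γ a = γ b → a = b := by
  obtain ⟨G, iG, hG, γ, π, h1, h2, h3, h4⟩ := rees_coord V h hC
  choose iv hiv1 hiv2 using zs_regular h
  let sr : C → C := fun a => a * iv a
  let tg : C → C := fun a => iv a * a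
  have hsr : ∀ a, sr a * a = a := hiv1
  have htg : ∀ a, a * tg a = a := fun a => by
    show a * (iv a * a) = a
    rw [← mul_assoc, hiv1]
  have hsri : ∀ a, sr a * sr a = sr a := fun a => by
    show a * iv a * (a * iv a) = a * iv a
    rw [← mul_assoc, hiv1]
  have htgi : ∀ a, tg a * tg a = tg a := fun a => by
    show iv a * a * (iv a * a) = iv a * a
    rw [← mul_assoc, hiv2]
  have hne : ∀ a b, a ≠ z → b ≠ z → (a * b ≠ z ↔ tg a = sr b) := by
    intro a b ha hb
    constructor
    · intro hab
      have e1 : a * (tg a * sr b) * b = a * b := by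
        rw [← mul_assoc, htg, mul_assoc, hsr]
      have e2 : tg a * sr b ≠ z := h.mul_right_ne (h.mul_left_ne (by rw [e1]; exact hab))
      have hcm := hc _ _ (htgi a) (hsri b)
      obtain ⟨c, hc1⟩ := h.right_inv e2
      obtain ⟨d, hd1⟩ := h.left_inv e2
      have e3 : sr b * tg a = tg a := by
        calc sr b * tg a = sr b * (tg a * sr b * c) := by rw [hc1]
          _ = (sr b * tg a) * sr b * c := by simp only [mul_assoc]
          _ = tg a * (sr b * sr b) * c := by rw [← hcm]; simp only [mul_assoc]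
          _ = tg a := by rw [hsri, hc1]
      have e4 : sr b * tg a = sr b := by
        calc sr b * tg a = d * (tg a * sr b) * tg a := by rw [hd1]
          _ = d * (tg a * (sr b * tg a)) := by simp only [mul_assoc]
          _ = d * (tg a * tg a * sr b) := by rw [← hcm]; simp only [mul_assoc]
          _ = sr b := by rw [htgi, hd1]
      exact e3.symm.trans e4
    · intro hab
      have e1 : a * tg a ≠ z := by rw [htg]; exact ha
      have e2 : tg a * b ≠ z := by rw [hab, hsr]; exact hb
      have := h.cat e1 e2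
      rwa [htg] at this
  have hivm : ∀ a b, iv (a * b) = iv b * iv a := by
    intro a b
    refine inv_unique hc (hiv1 _) (hiv2 _) ?_ ?_
    · calc a * b * (iv b * iv a) * (a * b) = a * (sr b * tg a) * b := by
            simp only [sr, tg, mul_assoc]
        _ = a * (tg a * sr b) * b := by rw [hc _ _ (htgi a) (hsri b)]
        _ = a * b := by rw [← mul_assoc, htg, mul_assoc, hsr]
    · calc iv b * iv a * (a * b) * (iv b * iv a) = iv b * (tg a * sr b) * iv a := by
            simp only [sr, tg, mul_assoc]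
        _ = iv b * (sr b * tg a) * iv a := by rw [hc _ _ (htgi a) (hsri b)]
        _ = (iv b * b * iv b) * (iv a * a * iv a) := by simp only [sr, tg, mul_assoc]
        _ = iv b * iv a := by rw [hiv2, hiv2]
  have hmul : ∀ a b, a * b ≠ z → sr (a * b) = sr a ∧ tg (a * b) = tg b := by
    intro a b hab
    have e := (hne a b (h.mul_left_ne hab) (h.mul_right_ne hab)).1 hab
    constructor
    · show a * b * iv (a * b) = a * iv a
      rw [hivm]
      calc a * b * (iv b * iv a) = a * sr b * iv a := by simp only [sr, mul_assoc]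
        _ = a * iv a := by rw [← e, htg]
    · show iv (a * b) * (a * b) = iv b * b
      rw [hivm]
      calc iv b * iv a * (a * b) = iv b * (tg a * b) := by simp only [tg, mul_assoc]
        _ = iv b * b := by rw [e, hsr]
  refine ⟨G, iG, hG, fun a => γ a * π (tg a) (tg a), sr, tg, hne, ?_, ?_⟩
  · intro a b hab
    have ha := h.mul_left_ne hab
    have hb := h.mul_right_ne hab
    have e := (hne a b ha hb).1 hab
    refine ⟨(hmul a b hab).1, (hmul a b hab).2, ?_⟩
    have e1 : a * tg a ≠ z := by rw [htg]; exact ha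
    have e2 : tg a * b ≠ z := by rw [e, hsr]; exact hb
    have e3 : tg a * tg a ≠ z := by rw [htgi]; exact h.mul_right_ne e1
    have e4 : π a b = π (tg a) (tg a) := by
      have f1 := h2 (tg a) b a e1 e2
      have f2 := h3 (tg a) (tg a) b e3 e2
      rw [htg] at f1
      have f3 : tg a * b = b := by rw [e, hsr]
      rw [f3] at f2
      exact f1.trans f2
    show γ (a * b) * π (tg (a * b)) (tg (a * b)) =
      γ a * π (tg a) (tg a) * (γ b * π (tg b) (tg b))
    rw [(hmul a b hab).2, h1 a b hab, e4]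
    simp only [mul_assoc]
  · intro a b ha hb hs ht hg
    have hg' : γ a * π (tg a) (tg a) = γ b * π (tg b) (tg b) := hg
    rw [ht] at hg'
    refine h4 a b ha hb ⟨⟨iv a * b, ?_⟩, ⟨iv b * a, ?_⟩⟩ ⟨⟨b * iv a, ?_⟩, ⟨a * iv b, ?_⟩⟩
      (mul_right_cancel hg')
    · rw [← mul_assoc]
      show sr a * b = b
      rw [hs, hsr]
    · rw [← mul_assoc]
      show sr b * a = a
      rw [← hs, hsr]
    · rw [mul_assoc]
      show b * tg a = b
      rw [ht, htg]
    · rw [mul_assoc]
      show a * tg b = a
      rw [← ht, htg]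

open Classical in
/-- the identity sandwich matrix -/
noncomputable def idP (G I : Type) [Group G] : I → I → Option G :=
  fun i j => if i = j then some 1 else none

/-- the Brandt semigroup `B(G, I)` -/
abbrev BR (G I : Type) [Group G] : Type := RM G I I (idP G I)

theorem idP_self {G I : Type} [Group G] (i : I) : idP G I i i = some 1 := if_pos rfl

theorem idP_ne {G I : Type} [Group G] {i j : I} (h : i ≠ j) : idP G I i j = none := if_neg h

theorem BR_zs (G I : Type) [Group G] [Nonempty I] : ZS (RM.zero (idP G I) : BR G I) :=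
  RM.zs (fun i => ⟨i, 1, idP_self i⟩) (fun i => ⟨i, 1, idP_self i⟩)

theorem el_inj {G I L : Type} {P : L → I → Option G} {i j : I} {a b : G} {l m : L}
    (h : RM.el P i a l = RM.el P j b m) : i = j ∧ a = b ∧ l = m :=
  J11120.rm_allSub_el_inj h

theorem el_ne {G I L : Type} {P : L → I → Option G} {i : I} {a : G} {l : L} :
    RM.el P i a l ≠ RM.zero P := J11120.rm_allSub_el_ne

theorem BR_idComm (G I : Type) [Group G] : IdComm (BR G I) := by
  have key : ∀ e : BR G I, e * e = e → e = RM.zero _ ∨ ∃ i, e = RM.el _ i 1 i := by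
    intro e he
    rcases RM.cases' e with rfl | ⟨i, g, l, rfl⟩
    · exact Or.inl rfl
    · right
      by_cases hli : l = i
      · subst hli
        rw [RM.el_mul_el (idP_self l)] at he
        have h1 := (el_inj he).2.1
        rw [mul_one] at h1
        have h2 : g = 1 := by simpa using h1
        exact ⟨l, by rw [h2]⟩
      · rw [RM.el_mul_el_none (idP_ne hli)] at he
        exact absurd he.symm el_ne
  intro e f he hf
  rcases key e he with rfl | ⟨i, rfl⟩
  · rw [RM.zero_mul', RM.mul_zero']
  rcases key f hf with rfl | ⟨j, rfl⟩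
  · rw [RM.zero_mul', RM.mul_zero']
  by_cases hij : i = j
  · rw [hij]
  · rw [RM.el_mul_el_none (idP_ne hij), RM.el_mul_el_none (idP_ne (Ne.symm hij))]

/-- the Brandt semigroup as a finite semigroup -/
noncomputable def BRF (G I : Type) [Group G] [Finite G] [Finite I] : FinSg :=
  ⟨BR G I, inferInstance, inferInstance, ⟨RM.zero _⟩⟩

theorem BRF_mem (V : PV) {G : Type} [Group G] [Finite G] (hG : V.mem G) (I : Type) [Finite I]
    [Nonempty I] : BRF G I ∈ BrO V :=
  mem_BrO.2 ⟨⟨zeroSimple_of_zs (BR_zs G I), rm_allSub V hG _⟩, BR_idComm G I⟩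

theorem h_eqB (V : PV) : opH (BrO V) = BrO V ∪ {S | Nat.card S = 1} := by
  apply Set.Subset.antisymm
  · rintro B ⟨A, hA, f, hf⟩
    rw [mem_BrO] at hA
    have h1 : B ∈ opH (ZSO V) := ⟨A, hA.1, f, hf⟩
    rw [h_eq] at h1
    rcases h1 with h1 | h1
    · exact Or.inl (mem_BrO.2 ⟨h1, IdComm.quot f hf hA.2⟩)
    · exact Or.inr h1
  · rintro B (hB | hB)
    · exact opH_incr _ hB
    · have hB' : Nat.card B = 1 := hB
      rw [Nat.card_eq_one_iff_unique] at hB'
      obtain ⟨hsub, ⟨b0⟩⟩ := hB'
      refine ⟨BRF Unit Unit, BRF_mem V V.unit Unit,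
        { toFun := fun _ => b0, map_mul' := fun _ _ => Subsingleton.elim _ _ }, ?_⟩
      intro b
      exact ⟨(RM.zero _ : BR Unit Unit), Subsingleton.elim b0 b⟩

theorem sh_eqB (V : PV) : opS (opH (BrO V)) = opS (BrO V) := by
  apply Set.Subset.antisymm
  · rintro B ⟨A, hA, f, hf⟩
    rw [h_eqB] at hA
    rcases hA with hA | hA
    · exact ⟨A, hA, f, hf⟩
    · have hsub : Subsingleton A := (Nat.card_eq_one_iff_unique.1 hA).1
      exact ⟨BRF Unit Unit, BRF_mem V V.unit Unit,
        ⟨fun _ => (RM.zero _ : BR Unit Unit), fun _ _ => (RM.zero_mul' _).symm⟩,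
        fun x y _ => hf (Subsingleton.elim _ _)⟩
  · exact opS_mono (opH_incr _)

theorem shp_eqB (V : PV) : opS (opH (opP (BrO V))) = opS (opP (BrO V)) := by
  classical
  refine Set.Subset.antisymm ?_ (opS_mono (opH_incr _))
  rintro B ⟨R, ⟨A, ⟨n, T, hT, ⟨φ⟩⟩, f, hf⟩, e, he⟩
  have hT' := fun i => mem_BrO.1 (hT i)
  choose z hz using fun i => zs_of_zeroSimple (hT i).1
  let F : (∀ i, T i) →ₙ* R := f.comp φ.symm.toMulHom
  have hF : Surjective F := hf.comp φ.symm.surjective
  have hA : AllSub V (∀ i, T i) := AllSub.pi (fun i => (T i).carrier) (fun i => (hT' i).1.2)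
  have hR : AllSub V R := AllSub.quot F hF hA
  have hRc : IdComm R := IdComm.quot F hF (IdComm.pi _ fun i => (hT' i).2)
  rcases subsingleton_or_nontrivial R with hs | hn
  · refine ⟨prodSg T, ⟨n, T, hT, ⟨MulEquiv.refl _⟩⟩, ⟨fun _ i => z i, fun _ _ => ?_⟩, ?_⟩
    · funext i
      exact ((hz i).1 (z i)).1.symm
    · intro x y _
      exact he (Subsingleton.elim _ _)
  · have hsep : ∀ p : {p : R × R // p.1 ≠ p.2}, ∃ Q : FinSg, Q ∈ BrO V ∧
        ∃ q : R →ₙ* Q, q p.1.1 ≠ q p.1.2 := by
      rintro ⟨⟨a, b⟩, hab⟩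
      have hfin : Finite (Con R) := by
        refine Finite.of_injective (fun (c : Con R) => (fun x y => c x y : R → R → Prop)) ?_
        intro c d h
        ext x y
        exact iff_of_eq (congrFun (congrFun h x) y)
      have hne : ({c : Con R | ¬ c a b}).Nonempty := ⟨⊥, fun h => hab h⟩
      obtain ⟨c, hc, hmax⟩ := (Set.toFinite {c : Con R | ¬ c a b}).exists_maximal hne
      have hfq : Finite c.Quotient := Finite.of_surjective (fun x : R => (x : c.Quotient))
        (fun x => Con.induction_on x (fun y => ⟨y, rfl⟩))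
      have hneq : Nonempty c.Quotient := ⟨(a : c.Quotient)⟩
      let q : R →ₙ* c.Quotient := ⟨fun x => (x : c.Quotient), fun x y => rfl⟩
      have hq : Surjective q := fun x => Con.induction_on x (fun y => ⟨y, rfl⟩)
      have hqab : q a ≠ q b := fun h => hc ((Con.eq c).1 h)
      refine ⟨⟨c.Quotient, inferInstance, hfq, hneq⟩,
        mem_BrO.2 ⟨⟨?_, AllSub.quot q hq hR⟩, IdComm.quot q hq hRc⟩, q, hqab⟩
      refine si_zeroSimple (fun i => (T i).carrier) z hz (q.comp F) (hq.comp hF) (q a) (q b) hqab ?_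
      intro d
      by_cases hd : d (q a) (q b)
      · exact Or.inl hd
      · right
        have hd' : Con.comap (fun x : R => (x : c.Quotient)) (fun x y => rfl) d ∈
            {c : Con R | ¬ c a b} := hd
        have hle : c ≤ Con.comap (fun x : R => (x : c.Quotient)) (fun x y => rfl) d := by
          intro x y hxy
          have h1 : ((x : R) : c.Quotient) = y := (Con.eq c).2 hxy
          show d (x : c.Quotient) (y : c.Quotient)
          rw [h1]
          exact d.refl _
        have hge := hmax hd' hle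
        intro x y
        refine Con.induction_on x (fun x' => Con.induction_on y (fun y' hxy => ?_))
        exact (Con.eq c).2 (hge hxy)
    choose Q hQ q hq using hsep
    have hι : Nonempty {p : R × R // p.1 ≠ p.2} := by
      obtain ⟨x, y, hxy⟩ := hn.exists_pair_ne
      exact ⟨⟨(x, y), hxy⟩⟩
    refine ⟨⟨∀ p, Q p, inferInstance, inferInstance, inferInstance⟩,
      pi_mem_opP Q hQ _ (MulEquiv.refl _), ⟨fun x p => q p (e x), fun x y => ?_⟩, ?_⟩
    · funext p
      simp only [map_mul]
      rfl
    · intro x y hxy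
      by_contra hne
      have h1 : e x ≠ e y := fun h => hne (he h)
      exact hq ⟨(e x, e y), h1⟩ (congrFun hxy ⟨(e x, e y), h1⟩)

end Pool.Agent.H814Z.Br
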