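import Pool.Agent.H814Z.Br.Basic
set_option autoImplicit false

namespace Pool.Agent.H814Z.Br

open Pool.Agent.H502.Bk Function J11715 J11144

/-- combinatorial part of an embedding in a Brandt semigroup -/
def Comb {S : Type} [Semigroup S] (Z : S → Prop) (a b : S → ℕ) : Prop :=
  ∀ s t, (Z s → Z (s * t) ∧ Z (t * s)) ∧
    (¬ Z s → ¬ Z t → ((¬ Z (s * t) → b s = a t) ∧ (b s = a t → ¬ Z (s * t)))) ∧
    (¬ Z (s * t) → a (s * t) = a s ∧ b (s * t) = b t)

/-- group part of an embedding in a Brandt semigroup -/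
def Sol {S : Type} [Semigroup S] (Z : S → Prop) (a b : S → ℕ) {G : Type} [Group G] (g : S → G) :
    Prop :=
  ∀ s t, (¬ Z (s * t) → g s * g t = g (s * t)) ∧
    ((¬ s = t ∧ ¬ Z s ∧ ¬ Z t ∧ a s = a t ∧ b s = b t) → g s ≠ g t)

theorem alg_SB (V : PV) (B : FinSg) : B ∈ opS (BrO V) ↔ ∃ (Z : B → Prop) (a b : B → ℕ),
    (∀ s t, Z s → Z t → s = t) ∧
    (∀ s, a s < Nat.card B + Nat.card B ∧ b s < Nat.card B + Nat.card B) ∧ Comb Z a b ∧
    ∃ (G : Type) (_ : Group G), V.mem G ∧ ∃ g : B → G, Sol Z a b g := by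
  classical
  constructor
  · rintro ⟨C, hC, j, hj⟩
    obtain ⟨z, hz⟩ := zs_of_zeroSimple hC.1
    obtain ⟨G, iG, hG, γ, sr, tg, h1, h2, h3⟩ := br_coord V hz hC.2.2 (mem_BrO.1 hC).2
    let κ : B ⊕ B → C := Sum.elim (fun s => sr (j s)) (fun s => tg (j s))
    let ε := Finite.equivFin (B ⊕ B)
    have hex : ∀ x : B ⊕ B, ∃ x', κ x' = κ x := fun x => ⟨x, rfl⟩
    let code : B ⊕ B → ℕ := fun x => (ε (Classical.epsilon fun x' => κ x' = κ x)).1
    have hcode : ∀ x x', code x = code x' ↔ κ x = κ x' := by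
      intro x x'
      constructor
      · intro h
        have h4 := ε.injective (Fin.ext h)
        have h5 := Classical.epsilon_spec (hex x)
        have h6 := Classical.epsilon_spec (hex x')
        rw [← h5, ← h6]
        exact congrArg κ h4
      · intro h
        simp only [code, h]
    have hlt : ∀ x, code x < Nat.card B + Nat.card B := fun x => by
      rw [← Nat.card_sum]
      exact Fin.is_lt _
    refine ⟨fun s => j s = z, fun s => code (Sum.inl s), fun s => code (Sum.inr s),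
      fun s t hs ht => hj (hs.trans ht.symm), fun s => ⟨hlt _, hlt _⟩, ?_, G, iG, hG,
      fun s => γ (j s), ?_⟩
    · intro s t
      simp only [map_mul, hcode]
      refine ⟨fun hs => ?_, fun hs ht => ⟨(h1 _ _ hs ht).1, (h1 _ _ hs ht).2⟩, fun h => ?_⟩
      · rw [hs]
        exact ⟨(hz.1 _).1, (hz.1 _).2⟩
      · show sr (j (s * t)) = sr (j s) ∧ tg (j (s * t)) = tg (j t)
        rw [map_mul]
        exact ⟨(h2 _ _ h).1, (h2 _ _ h).2.1⟩
    · intro s t
      simp only [map_mul, hcode]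
      refine ⟨fun h => (h2 _ _ h).2.2.symm, ?_⟩
      rintro ⟨a1, a2, a3, a4, a5⟩ a6
      exact a1 (hj (h3 _ _ a2 a3 a4 a5 a6))
  · rintro ⟨Z, a, b, hZ, hlt, hc, G, iG, hG, g, hs⟩
    have : Finite G := V.fin G hG
    have hpos : 0 < Nat.card B := Nat.card_pos
    have hne : Nonempty (Fin (Nat.card B + Nat.card B)) := ⟨⟨0, by omega⟩⟩
    let f : B → BR G (Fin (Nat.card B + Nat.card B)) := fun s =>
      if Z s then RM.zero _ else RM.el _ ⟨a s, (hlt s).1⟩ (g s) ⟨b s, (hlt s).2⟩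
    have f0 : ∀ s, Z s → f s = RM.zero _ := fun s h => if_pos h
    have f1 : ∀ s, ¬ Z s → f s = RM.el _ ⟨a s, (hlt s).1⟩ (g s) ⟨b s, (hlt s).2⟩ :=
      fun s h => if_neg h
    refine ⟨BRF G (Fin (Nat.card B + Nat.card B)), BRF_mem V hG _, ⟨f, ?_⟩, ?_⟩
    · intro s t
      show f (s * t) = f s * f t
      by_cases h1 : Z s
      · rw [f0 _ h1, f0 _ ((hc s t).1 h1).1, RM.zero_mul']
      by_cases h2 : Z t
      · rw [f0 _ h2, f0 _ ((hc t s).1 h2).2, RM.mul_zero']
      rw [f1 _ h1, f1 _ h2]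
      by_cases h3 : b s = a t
      · have h4 := ((hc s t).2.1 h1 h2).2 h3
        have h5 : idP G (Fin (Nat.card B + Nat.card B)) ⟨b s, (hlt s).2⟩ ⟨a t, (hlt t).1⟩ =
            some 1 := if_pos (Fin.ext h3)
        rw [f1 _ h4, RM.el_mul_el h5, mul_one, (hs s t).1 h4]
        congr 1
        · exact Fin.ext ((hc s t).2.2 h4).1
        · exact Fin.ext ((hc s t).2.2 h4).2
      · have h4 : Z (s * t) := by
          by_contra h4
          exact h3 (((hc s t).2.1 h1 h2).1 h4)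
        rw [f0 _ h4, RM.el_mul_el_none (idP_ne fun h => h3 (congrArg Fin.val h))]
    · intro s t h
      have h' : f s = f t := h
      by_cases h1 : Z s <;> by_cases h2 : Z t
      · exact hZ s t h1 h2
      · rw [f0 _ h1, f1 _ h2] at h'
        exact absurd h'.symm el_ne
      · rw [f1 _ h1, f0 _ h2] at h'
        exact absurd h' el_ne
      · rw [f1 _ h1, f1 _ h2] at h'
        obtain ⟨a1, a2, a3⟩ := el_inj h'
        by_contra hst
        exact (hs s t).2 ⟨hst, h1, h2, congrArg Fin.val a1, congrArg Fin.val a3⟩ a2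

/-- the zero element coded by `c` -/
def dN (n c : ℕ) : ℕ := c % (n + 1)

/-- the digits coded by `c` -/
def dgN (n c i : ℕ) : ℕ := c / (n + 1) / (n + n) ^ i % (n + n)

def dT : Tm352 := .mod (.v 1) (.add (.v 0) (.c 1))

def dgT (i : Tm352) : Tm352 :=
  .mod (.div (.div (.v 1) (.add (.v 0) (.c 1))) (.pow (.add (.v 0) (.v 0)) i)) (.add (.v 0) (.v 0))

def bT (i : Tm352) : Tm352 := dgT (.add (.v 0) i)

def combF : Fm352 := .all (.v 0) (.all (.v 0) (.and
  (.imp (.eq (.v 2) dT) (.and (.eq (mt352 (.v 2) (.v 3)) dT) (.eq (mt352 (.v 3) (.v 2)) dT)))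
  (.and (.imp (.not (.eq (.v 2) dT)) (.imp (.not (.eq (.v 3) dT)) (.and
      (.imp (.not (.eq (mt352 (.v 2) (.v 3)) dT)) (.eq (bT (.v 2)) (dgT (.v 3))))
      (.imp (.eq (bT (.v 2)) (dgT (.v 3))) (.not (.eq (mt352 (.v 2) (.v 3)) dT))))))
    (.imp (.not (.eq (mt352 (.v 2) (.v 3)) dT)) (.and
      (.eq (dgT (mt352 (.v 2) (.v 3))) (dgT (.v 2)))
      (.eq (bT (mt352 (.v 2) (.v 3))) (bT (.v 3))))))))

theorem combF_ho (l : List ℕ) (n c : ℕ) : combF.ho l [n, c] ↔ ∀ s < n, ∀ t < n,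
    (s = dN n c → tmul n l s t = dN n c ∧ tmul n l t s = dN n c) ∧
    (¬ s = dN n c → ¬ t = dN n c →
      ((¬ tmul n l s t = dN n c → dgN n c (n + s) = dgN n c t) ∧
        (dgN n c (n + s) = dgN n c t → ¬ tmul n l s t = dN n c))) ∧
    (¬ tmul n l s t = dN n c → dgN n c (tmul n l s t) = dgN n c s ∧
      dgN n c (n + tmul n l s t) = dgN n c (n + t)) := Iff.rfl

def e1F : Fm352 := .not (.eq (mt352 (.v 2) (.v 3)) dT)

def e2F : Fm352 := .and (.not (.eq (.v 2) (.v 3))) (.and (.not (.eq (.v 2) dT))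
  (.and (.not (.eq (.v 3) dT)) (.and (.eq (dgT (.v 2)) (dgT (.v 3))) (.eq (bT (.v 2)) (bT (.v 3))))))

/-- word with three letters -/
def w3 (a b c : Tm352) (l e : List ℕ) : Wd :=
  [(a.ev l e, true), (b.ev l e, true), (c.ev l e, false)]

theorem w3_prim (a b c : Tm352) : Primrec fun p : List ℕ × List ℕ => w3 a b c p.1 p.2 :=
  Primrec.list_cons.comp (a.prim.pair (Primrec.const true))
    (Primrec.list_cons.comp (b.prim.pair (Primrec.const true))
      (Primrec.list_cons.comp (c.prim.pair (Primrec.const false)) (Primrec.const [])))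

theorem w3_ev {G : Type} [Group G] (v : ℕ → G) (a b c : Tm352) (l e : List ℕ) :
    ¬ Lit.ho v (false, w3 a b c l e) ↔ v (a.ev l e) * v (b.ev l e) = v (c.ev l e) := by
  have h : Wd.ev v (w3 a b c l e) = v (a.ev l e) * v (b.ev l e) * (v (c.ev l e))⁻¹ := by
    simp [Wd.ev, w3, mul_assoc]
  simp only [Lit.ho, h, Bool.false_eq_true, if_false, not_not, ne_eq]
  exact mul_inv_eq_one

open Classical in
noncomputable def litsB (l e : List ℕ) : List Lit :=
  [if e1F.ho l e then (false, w3 (.v 2) (.v 3) (mt352 (.v 2) (.v 3)) l e) else (false, []),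
   if e2F.ho l e then (true, w2_352 (.v 2) (.v 3) l e) else (false, [])]

theorem litsB_prim : Primrec fun p : List ℕ × List ℕ => litsB p.1 p.2 := by
  classical
  unfold litsB
  refine Primrec.list_cons.comp ?_ (Primrec.list_cons.comp ?_ (Primrec.const []))
  · exact Primrec.ite e1F.prim ((Primrec.const false).pair (w3_prim _ _ _)) (Primrec.const _)
  · exact Primrec.ite e2F.prim ((Primrec.const true).pair (w2_prim352 _ _)) (Primrec.const _)

noncomputable def clB (l : List ℕ) (n c : ℕ) : List Lit :=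
  (List.range (n * n)).flatMap fun i => litsB l [n, c, i / n, i % n]

theorem clB_prim : Primrec fun q : (ℕ × List ℕ) × ℕ => ([clB q.1.2 q.1.1 q.2] : Cnf) := by
  refine Primrec.list_cons.comp ?_ (Primrec.const [])
  unfold clB
  refine Primrec.list_flatMap (f := fun q : (ℕ × List ℕ) × ℕ => List.range (q.1.1 * q.1.1))
    (g := fun (q : (ℕ × List ℕ) × ℕ) (i : ℕ) => litsB q.1.2 [q.1.1, q.2, i / q.1.1, i % q.1.1])
    ?_ ?_
  · exact Primrec.list_range.comp (Primrec.nat_mul.comp (Primrec.fst.comp Primrec.fst)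
      (Primrec.fst.comp Primrec.fst))
  · have hn : Primrec fun q : ((ℕ × List ℕ) × ℕ) × ℕ => q.1.1.1 :=
      Primrec.fst.comp (Primrec.fst.comp Primrec.fst)
    have hl : Primrec fun q : ((ℕ × List ℕ) × ℕ) × ℕ => q.1.1.2 :=
      Primrec.snd.comp (Primrec.fst.comp Primrec.fst)
    have hd : Primrec fun q : ((ℕ × List ℕ) × ℕ) × ℕ => q.1.2 := Primrec.snd.comp Primrec.fst
    have hi : Primrec fun q : ((ℕ × List ℕ) × ℕ) × ℕ => q.2 := Primrec.snd
    refine litsB_prim.comp (g := fun q : ((ℕ × List ℕ) × ℕ) × ℕ =>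
      (q.1.1.2, [q.1.1.1, q.1.2, q.2 / q.1.1.1, q.2 % q.1.1.1])) (hl.pair ?_)
    exact Primrec.list_cons.comp hn (Primrec.list_cons.comp hd
      (Primrec.list_cons.comp (Primrec.nat_div.comp hi hn)
        (Primrec.list_cons.comp (Primrec.nat_mod.comp hi hn) (Primrec.const []))))

def SysB {G : Type} [Group G] (v : ℕ → G) (l : List ℕ) (n c s t : ℕ) : Prop :=
  (¬ tmul n l s t = dN n c → v s * v t = v (tmul n l s t)) ∧
    ((¬ s = t ∧ ¬ s = dN n c ∧ ¬ t = dN n c ∧ dgN n c s = dgN n c t ∧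
      dgN n c (n + s) = dgN n c (n + t)) → v s ≠ v t)

theorem litsB_sem {G : Type} [Group G] (v : ℕ → G) (l : List ℕ) (n c s t : ℕ) :
    (¬ ∃ L ∈ litsB l [n, c, s, t], Lit.ho v L) ↔ SysB v l n c s t := by
  unfold litsB
  simp only [List.mem_cons, List.not_mem_nil, or_false, exists_eq_or_imp, exists_eq_left, not_or,
    lit_ite352, w3_ev, w2_ev_true352]
  exact Iff.rfl

theorem clB_sem {G : Type} [Group G] (v : ℕ → G) (l : List ℕ) (n c : ℕ) :
    (¬ Cnf.ho v [clB l n c]) ↔ ∀ s < n, ∀ t < n, SysB v l n c s t := by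
  have e : Cnf.ho v [clB l n c] ↔ ∃ L ∈ clB l n c, Lit.ho v L := by
    simp [Cnf.ho]
  rw [e]
  unfold clB
  simp only [List.mem_flatMap, List.mem_range]
  constructor
  · intro h s hs t ht
    have hn : 0 < n := by omega
    rw [← litsB_sem]
    rintro ⟨L, hL, hv⟩
    refine h ⟨L, ⟨t + n * s, ?_, ?_⟩, hv⟩
    · calc t + n * s < n + n * s := by omega
        _ = n * (s + 1) := by ring
        _ ≤ n * n := Nat.mul_le_mul_left _ hs
    · rw [Nat.add_mul_div_left _ _ hn, Nat.div_eq_of_lt ht, Nat.zero_add,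
        Nat.add_mul_mod_self_left, Nat.mod_eq_of_lt ht]
      exact hL
  · rintro h ⟨L, ⟨i, hi, hL⟩, hv⟩
    have hn : 0 < n := by
      rcases Nat.eq_zero_or_pos n with h0 | h0
      · subst h0; simp at hi
      · exact h0
    have hs : i / n < n := by
      rw [Nat.div_lt_iff_lt_mul hn]
      exact hi
    exact (litsB_sem v l n c _ _).2 (h _ hs _ (Nat.mod_lt _ hn)) ⟨L, hL, hv⟩

theorem semB (V : PV) {n : ℕ} {l : List ℕ} (h : IsTable n l) :
    tableSg n l h ∈ opS (BrO V) ↔ ∃ c < (n + 1) * (n + n) ^ (n + n), combF.ho l [n, c] ∧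
      ¬ ∀ (G : Type) [Group G], V.mem G → ∀ v : ℕ → G, Cnf.ho v [clB l n c] := by
  classical
  rw [alg_SB, dH_card_tableSg]
  have hn : 0 < n := h.1
  constructor
  · rintro ⟨Z, a, b, hZ, hlt, hc, G, iG, hG, g, hs⟩
    obtain ⟨d, hd, hZd⟩ : ∃ d < n + 1, ∀ x : Fin n, Z x ↔ x.1 = d := by
      by_cases he : ∃ z, Z z
      · obtain ⟨z, hz⟩ := he
        refine ⟨(show Fin n from z).1, Nat.lt_succ_of_lt (show Fin n from z).2, fun x => ?_⟩
        constructor
        · intro hx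
          rw [hZ x z hx hz]
        · intro hx
          have : x = z := Fin.ext hx
          rw [this]
          exact hz
      · exact ⟨n, Nat.lt_succ_self n, fun x =>
          ⟨fun hx => (he ⟨x, hx⟩).elim, fun hx => absurd hx (Nat.ne_of_lt x.2)⟩⟩
    let aa : Fin n → ℕ := a
    let bb : Fin n → ℕ := b
    let F : ℕ → ℕ := fun i => if hi : i < n then aa ⟨i, hi⟩ else
      if hi' : i - n < n then bb ⟨i - n, hi'⟩ else 0
    have hF : ∀ i < n + n, F i < n + n := by
      intro i _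
      simp only [F]
      split_ifs
      · exact (hlt _).1
      · exact (hlt _).2
      · omega
    obtain ⟨M, hM, hdig⟩ := exists_digits352 (n + n) (n + n) F hF
    have e1 : dN n (d + (n + 1) * M) = d := by
      unfold dN
      rw [Nat.add_mul_mod_self_left, Nat.mod_eq_of_lt hd]
    have e0 : (d + (n + 1) * M) / (n + 1) = M := by
      rw [Nat.add_mul_div_left _ _ (Nat.succ_pos n), Nat.div_eq_of_lt hd, Nat.zero_add]
    have e2 : ∀ s (hs : s < n), dgN n (d + (n + 1) * M) s = aa ⟨s, hs⟩ := by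
      intro s hs
      unfold dgN
      rw [e0, hdig s (by omega)]
      exact dif_pos hs
    have e3 : ∀ s (hs : s < n), dgN n (d + (n + 1) * M) (n + s) = bb ⟨s, hs⟩ := by
      intro s hs
      unfold dgN
      rw [e0, hdig (n + s) (by omega)]
      simp only [F]
      rw [dif_neg (by omega), dif_pos (by omega)]
      congr 1
      exact Fin.ext (by simp)
    refine ⟨d + (n + 1) * M, ?_, ?_, ?_⟩
    · calc d + (n + 1) * M < (n + 1) + (n + 1) * M := by omega
        _ = (n + 1) * (M + 1) := by ring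
        _ ≤ _ := Nat.mul_le_mul_left _ hM
    · rw [combF_ho]
      intro s hs t ht
      rw [e1, e2 s hs, e2 t ht, e3 s hs, e3 t ht, e2 _ (tmul_lt h s t), e3 _ (tmul_lt h s t)]
      have h1 := hc (⟨s, hs⟩ : Fin n) (⟨t, ht⟩ : Fin n)
      rw [hZd, hZd, hZd, hZd] at h1
      exact h1
    · intro H
      let gg : Fin n → G := g
      let v : ℕ → G := fun i => if hi : i < n then gg ⟨i, hi⟩ else 1
      have hv : ∀ i (hi : i < n), v i = gg ⟨i, hi⟩ := fun i hi => dif_pos hi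
      refine (clB_sem v l n _).2 ?_ (H G hG v)
      intro s hs' t ht
      unfold SysB
      rw [e1, e2 s hs', e2 t ht, e3 s hs', e3 t ht, hv s hs', hv t ht, hv _ (tmul_lt h s t)]
      have h1 := hs (⟨s, hs'⟩ : Fin n) (⟨t, ht⟩ : Fin n)
      rw [hZd, hZd, hZd] at h1
      refine ⟨h1.1, fun h2 => h1.2 ⟨fun h3 => h2.1 (congrArg Fin.val h3), h2.2⟩⟩
  · rintro ⟨c, -, hc, H⟩
    push Not at H
    obtain ⟨G, iG, hG, v, hv⟩ := H
    rw [clB_sem] at hv
    rw [combF_ho] at hc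
    refine ⟨fun x : Fin n => x.1 = dN n c, fun x : Fin n => dgN n c x.1,
      fun x : Fin n => dgN n c (n + x.1), fun s t hs ht => Fin.ext (hs.trans ht.symm),
      fun s => ⟨Nat.mod_lt _ (by omega), Nat.mod_lt _ (by omega)⟩, ?_, G, iG, hG,
      fun x : Fin n => v x.1, ?_⟩
    · intro s t
      exact hc (show Fin n from s).1 (show Fin n from s).2 (show Fin n from t).1
        (show Fin n from t).2
    · intro s t
      have h1 := hv (show Fin n from s).1 (show Fin n from s).2 (show Fin n from t).1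
        (show Fin n from t).2
      exact ⟨h1.1, fun h2 => h1.2 ⟨fun h3 => h2.1 (Fin.ext h3), h2.2⟩⟩

theorem dec_SB (V : PV) (hV : V.DecUniv) : DecClass (opS (BrO V)) := by
  have h1 : ComputablePred fun q : (ℕ × List ℕ) × ℕ => combF.ho q.1.2 [q.1.1, q.2] ∧
      ¬ ∀ (G : Type) [Group G], V.mem G → ∀ v : ℕ → G, Cnf.ho v [clB q.1.2 q.1.1 q.2] := by
    refine dH_andC (dH_ofPrim ?_) (dH_compC hV clB_prim.to_comp).not
    exact combF.prim.comp (f := fun q : (ℕ × List ℕ) × ℕ => (q.1.2, [q.1.1, q.2]))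
      ((Primrec.snd.comp Primrec.fst).pair (Primrec.list_cons.comp (Primrec.fst.comp Primrec.fst)
        (Primrec.list_cons.comp Primrec.snd (Primrec.const []))))
  have h2 : Primrec fun x : ℕ × List ℕ => (x.1 + 1) * (x.1 + x.1) ^ (x.1 + x.1) :=
    Primrec.nat_mul.comp (Primrec.succ.comp Primrec.fst)
      (powPrim352.comp (Primrec.nat_add.comp Primrec.fst Primrec.fst)
        (Primrec.nat_add.comp Primrec.fst Primrec.fst))
  have h3 := dH_andC (dH_ofPrim isTablePrim352) (dH_exLtC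
    (P := fun (x : ℕ × List ℕ) (c : ℕ) => combF.ho x.2 [x.1, c] ∧
      ¬ ∀ (G : Type) [Group G], V.mem G → ∀ v : ℕ → G, Cnf.ho v [clB x.2 x.1 c]) h2.to_comp h1)
  unfold DecClass
  refine h3.of_eq fun x => ?_
  constructor
  · rintro ⟨ht, h⟩
    exact ⟨ht, (semB V ht).2 h⟩
  · rintro ⟨ht, h⟩
    exact ⟨ht, (semB V ht).1 h⟩

def idF : Fm352 := .all (.v 0) (.all (.v 0) (.imp (.eq (mt352 (.v 1) (.v 1)) (.v 1))
  (.imp (.eq (mt352 (.v 2) (.v 2)) (.v 2)) (.eq (mt352 (.v 1) (.v 2)) (mt352 (.v 2) (.v 1))))))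

theorem idF_ho (l : List ℕ) (n : ℕ) : idF.ho l [n] ↔ ∀ s < n, ∀ t < n,
    tmul n l s s = s → tmul n l t t = t → tmul n l s t = tmul n l t s := Iff.rfl

theorem dec_BrO (V : PV) (hV : V.DecUniv) : DecClass (BrO V) := by
  have h1 : PrimrecPred fun x : ℕ × List ℕ => idF.ho x.2 [x.1] :=
    idF.prim.comp (f := fun x : ℕ × List ℕ => (x.2, [x.1]))
      (Primrec.snd.pair (Primrec.list_cons.comp Primrec.fst (Primrec.const [])))
  have h2 := dH_andC (dec_ZSO V hV) (dH_ofPrim h1)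
  unfold DecClass
  refine h2.of_eq fun x => ?_
  rw [idF_ho]
  constructor
  · rintro ⟨⟨ht, h3⟩, h4⟩
    refine ⟨ht, mem_BrO.2 ⟨h3, fun e f he hf => ?_⟩⟩
    exact Fin.ext (h4 (show Fin x.1 from e).1 (show Fin x.1 from e).2 (show Fin x.1 from f).1
      (show Fin x.1 from f).2 (congrArg Fin.val he) (congrArg Fin.val hf))
  · rintro ⟨ht, h3⟩
    rw [mem_BrO] at h3
    refine ⟨⟨ht, h3.1⟩, fun s hs t ht' h4 h5 => ?_⟩
    exact congrArg Fin.val (h3.2 (⟨s, hs⟩ : Fin x.1) (⟨t, ht'⟩ : Fin x.1) (Fin.ext h4) (Fin.ext h5))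

end Pool.Agent.H814Z.Br
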