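import Pool.Agent.H502.BkDefs
set_option autoImplicit false

namespace Pool.Agent.H814Z.Br

open Pool.Agent.H502.Bk

/-- An inverse semigroup: every element `a` has exactly one inverse `b`
(`a b a = a` and `b a b = b`). -/
def IsInverseSg (S : Type) [Semigroup S] : Prop :=
  ∀ a : S, ∃! b : S, a * b * a = a ∧ b * a * b = b

/-- The class of finite Brandt semigroups over `V`: the finite 0-simple inverse semigroups all of
whose subgroups belong to `V`. -/
def BrO (V : PV) : Set FinSg := {S | ZeroSimple S ∧ IsInverseSg S ∧ AllSub V S}

end Pool.Agent.H814Z.Br
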