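import Pool.Agent.H814Z.Br.Real
set_option autoImplicit false

namespace Pool.Agent.H814Z.Br

open Pool.Agent.H502.Bk Pool.Agent.H502.Bk.W Function

/-- bound for the number of classes for `HPS` -/
def qS (n : ℕ) : ℕ := n + n ^ (n ^ numS n) * n

open Classical in
/-- abstract data extracted from a surjection of a product of subsemigroups of 0-simple
semigroups over groups in `V` -/
structure Sys (V : PV) (S : Type) [Semigroup S] where
  F : (Shp S → W S) → S
  Str : Shp S → W S → W S → Prop
  F_mul : ∀ u v : Shp S → W S, F (u * v) = F u * F v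
  F_one : ∀ s, F (fun _ => one s) = s
  Str_eqv : ∀ D, Equivalence (Str D)
  F_str : ∀ D p p', Str D p p' → ∀ u : Shp S → W S, F (update u D p) = F (update u D p')
  Str_zero : ∀ D p p', ¬ pth D p → ¬ pth D p' → Str D p p'
  Str_lab : ∀ D, LabS V D (Str D)

namespace Sys

open Classical

variable {V : PV} {S : Type} [Semigroup S] (Y : Sys V S)

/-- equality in all contexts with long other coordinates -/
def E (D : Shp S) (p p' : W S) : Prop :=
  ∀ u : Shp S → W S, (∀ D', D' ≠ D → Long (u D')) → Y.F (update u D p) = Y.F (update u D p')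

theorem E_of_str {D : Shp S} {p p' : W S} (h : Y.Str D p p') : Y.E D p p' :=
  fun u _ => Y.F_str D p p' h u

theorem E_symm {D : Shp S} {p p' : W S} (h : Y.E D p p') : Y.E D p' p :=
  fun u hu => (h u hu).symm

theorem E_trans {D : Shp S} {p p' p'' : W S} (h : Y.E D p p') (h' : Y.E D p' p'') :
    Y.E D p p'' :=
  fun u hu => (h u hu).trans (h' u hu)

theorem E_split (D : Shp S) (p p' : W S)
    (h : ∀ a : Shp S → S, Y.F (update (fun D' => one (a D')) D p) =
      Y.F (update (fun D' => one (a D')) D p')) (t : W S) : Y.E D (p * t) (p' * t) := by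
  intro u hu
  have h1 : ∀ D', ∃ s : S, ∃ v : W S, D' ≠ D → u D' = one s * v := by
    intro D'
    by_cases hD : D' = D
    · exact ⟨head t, t, fun h => absurd hD h⟩
    · obtain ⟨s, v, hv⟩ := (hu D' hD).split
      exact ⟨s, v, fun _ => hv⟩
  choose a v hav using h1
  have h2 : ∀ q : W S, update u D (q * t) = update (fun D' => one (a D')) D q * update v D t := by
    intro q
    funext D'
    by_cases hD : D' = D
    · subst hD; simp
    · simp [hD, hav D' hD]
  rw [h2, h2, Y.F_mul, Y.F_mul, h]

/-- strongly equivalent to a long word -/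
def Lg (D : Shp S) (p : W S) : Prop := ∃ a, Long a ∧ Y.Str D p a

theorem Lg_long {D : Shp S} {p : W S} (h : Long p) : Y.Lg D p := ⟨p, h, (Y.Str_eqv D).refl _⟩

/-- the right congruence -/
def R (D : Shp S) : Setoid (W S) where
  r p p' := (Y.Lg D p ↔ Y.Lg D p') ∧ Y.E D p p' ∧ ∀ t, Y.E D (p * t) (p' * t)
  iseqv := ⟨fun _ => ⟨Iff.rfl, fun _ _ => rfl, fun _ _ _ => rfl⟩,
    fun h => ⟨h.1.symm, Y.E_symm h.2.1, fun t => Y.E_symm (h.2.2 t)⟩,
    fun h h' => ⟨h.1.trans h'.1, Y.E_trans h.2.1 h'.2.1, fun t => Y.E_trans (h.2.2 t) (h'.2.2 t)⟩⟩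

theorem R_of_str {D : Shp S} {p p' : W S} (h : Y.Str D p p') : Y.R D p p' := by
  refine ⟨⟨?_, ?_⟩, Y.E_of_str h,
    Y.E_split D p p' fun a => Y.F_str D p p' h (fun D' => one (a D'))⟩
  · rintro ⟨a, h1, h2⟩
    exact ⟨a, h1, (Y.Str_eqv D).trans ((Y.Str_eqv D).symm h) h2⟩
  · rintro ⟨a, h1, h2⟩
    exact ⟨a, h1, (Y.Str_eqv D).trans h h2⟩

theorem R_snoc {D : Shp S} {p p' : W S} (s : S) (h : Y.R D p p') :
    Y.R D (snoc p s) (snoc p' s) := by
  refine ⟨iff_of_true (Y.Lg_long trivial) (Y.Lg_long trivial), h.2.2 (one s), fun t => ?_⟩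
  have := h.2.2 (one s * t)
  rwa [← mul_assoc, ← mul_assoc] at this

theorem R_lab (D : Shp S) : LabS V D (fun p p' => Y.R D p p') :=
  (Y.Str_lab D).mono fun _ _ h => Y.R_of_str h

/-- the code of a class -/
noncomputable def code (D : Shp S) : W S → S ⊕ (((Shp S → S) → S) × S)
  | one s => Sum.inl s
  | snoc r t => Sum.inr (fun a => Y.F (update (fun D' => one (a D')) D r), t)

theorem R_of_code {D : Shp S} {p p' : W S} (h : Y.code D p = Y.code D p') : Y.R D p p' := by
  cases p with
  | one s =>
    cases p' with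
    | one s' =>
      have : s = s' := Sum.inl.inj h
      subst this
      exact (Y.R D).refl _
    | snoc w s' => simp [code] at h
  | snoc w s =>
    cases p' with
    | one s' => simp [code] at h
    | snoc w' s' =>
      have h' := Sum.inr.inj h
      have h1 : s = s' := congrArg Prod.snd h'
      subst h1
      have h2 := fun a => congrFun (congrArg Prod.fst h') a
      refine ⟨iff_of_true (Y.Lg_long trivial) (Y.Lg_long trivial),
        Y.E_split D w w' (fun a => h2 a) (one s), fun t => ?_⟩
      have := Y.E_split D w w' (fun a => h2 a) (one s * t)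
      rwa [← mul_assoc, ← mul_assoc] at this

theorem code_inj (D : Shp S) :
    Injective (fun q : Quotient (Y.R D) => Y.code D (Quotient.out q)) := by
  intro q q' h
  have := Quotient.sound (s := Y.R D) (Y.R_of_code h)
  have e : ∀ q : Quotient (Y.R D), Quotient.mk (Y.R D) (Quotient.out q) = q := fun q =>
    Quotient.out_eq q
  rwa [e, e] at this

theorem finite_Q [Finite S] (D : Shp S) : Finite (Quotient (Y.R D)) := by
  have := Fintype.ofFinite S
  exact Finite.of_injective _ (Y.code_inj D)

theorem card_Q [Finite S] [Nonempty S] (D : Shp S) :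
    Nat.card (Quotient (Y.R D)) ≤ qS (Nat.card S) := by
  have := Fintype.ofFinite S
  refine (Nat.card_le_card_of_injective _ (Y.code_inj D)).trans ?_
  rw [Nat.card_sum, Nat.card_prod, Nat.card_fun, Nat.card_fun]
  have hn : 0 < Nat.card S := Nat.card_pos
  exact Nat.add_le_add_left (Nat.mul_le_mul_right _ (Nat.pow_le_pow_right hn
    (Nat.pow_le_pow_right hn (card_shp S)))) _

variable {M : Shp S → FinSg} (g : ∀ D, S → M D)

/-- the subsemigroup generated by the generators -/
def U (D : Shp S) : Subsemigroup (M D) where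
  carrier := {r | ∃ w, ev (g D) w = r}
  mul_mem' := by
    rintro _ _ ⟨w, rfl⟩ ⟨w', rfl⟩
    exact ⟨w * w', ev_mul _ _ _⟩

def diag (s : S) : ∀ D, U g D :=
  fun D => ⟨ev (g D) (one s), one s, rfl⟩

/-- the property of a realisation -/
def Good : Prop := ∀ D w w', ev (g D) w = ev (g D) w' → (pth D w ↔ pth D w') ∧
    (pth D w → Cot D w w' ∧ Y.R D w w')

variable {g}

theorem diag_inj (hg : Good Y g) {s t : S} (h : diag g s = diag g t) : s = t := by
  let D : Shp S := (fun _ => True, ⊥)
  have h1 : ev (g D) (one s) = ev (g D) (one t) :=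
    congrArg Subtype.val (congrFun h D)
  have h2 : pth D (one s) := trivial
  have h3 : (Sum.inl s : S ⊕ S) = Sum.inl t := ((hg D _ _ h1).2 h2).1.1
  exact Sum.inl.inj h3

noncomputable def rep (t : ∀ D, U g D) : Shp S → W S :=
  if h : ∃ s, t = diag g s then fun _ => one h.choose else fun D => (t D).2.choose

theorem rep_spec (t : ∀ D, U g D) (D : Shp S) : ev (g D) (rep t D) = (t D).1 := by
  unfold rep
  split_ifs with h
  · have := h.choose_spec
    conv_rhs => rw [this]
    rfl
  · exact (t D).2.choose_spec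

theorem rep_diag (hg : Good Y g) (s : S) : rep (diag g s) = fun _ => one s := by
  have h : ∃ s', diag g s = diag g s' := ⟨s, rfl⟩
  unfold rep
  rw [dif_pos h]
  have := Y.diag_inj hg h.choose_spec
  rw [← this]

/-- words with the same value as long words -/
theorem F_eq [Finite S] (hg : Good Y g) (v u : Shp S → W S) (hu : ∀ D, Long (u D))
    (h : ∀ D, ev (g D) (v D) = ev (g D) (u D)) : Y.F v = Y.F u := by
  have key : ∀ D, ∃ a, Long a ∧ Y.Str D (v D) a ∧ Y.E D a (u D) := by
    intro D
    have hpi := (hg D _ _ (h D)).1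
    have hE : ∀ a, Y.Str D (v D) a → Y.E D a (u D) := by
      intro a ha
      by_cases hp : pth D (u D)
      · have hq := hpi.2 hp
        have h1 : Y.R D (v D) (u D) := ((hg D _ _ (h D)).2 hq).2
        exact Y.E_trans (Y.E_symm (Y.E_of_str ha)) h1.2.1
      · have hq : ¬ pth D (v D) := fun hq => hp (hpi.1 hq)
        exact Y.E_of_str ((Y.Str_eqv D).trans ((Y.Str_eqv D).symm ha) (Y.Str_zero D _ _ hq hp))
    by_cases hp : pth D (u D)
    · have hq := hpi.2 hp
      obtain ⟨a, ha1, ha2⟩ := ((hg D _ _ (h D)).2 hq).2.1.2 (Y.Lg_long (hu D))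
      exact ⟨a, ha1, ha2, hE _ ha2⟩
    · have hq : ¬ pth D (v D) := fun hq => hp (hpi.1 hq)
      exact ⟨u D, hu D, Y.Str_zero D _ _ hq hp, fun _ _ => rfl⟩
  choose a ha1 ha2 ha3 using key
  have := Fintype.ofFinite (Shp S)
  have h1 : Y.F v = Y.F a := by
    refine change_all Y.F (fun D => Y.Str D) (fun _ => True) ?_ v a trivial ha2
    intro w _ D b hb
    refine ⟨?_, trivial⟩
    have := Y.F_str D _ _ hb w
    rwa [update_eq_self] at this
  have h2 : Y.F a = Y.F u := by
    refine change_all Y.F (fun D p q => Long q ∧ Y.E D p q) (fun w => ∀ D, Long (w D)) ?_ a u ha1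
      (fun D => ⟨hu D, ha3 D⟩)
    rintro w hw D b ⟨hb1, hb2⟩
    constructor
    · have := hb2 w (fun D' _ => hw D')
      rwa [update_eq_self] at this
    · intro D'
      by_cases hD : D' = D
      · subst hD; simpa using hb1
      · rw [update_of_ne hD]; exact hw D'
  exact h1.trans h2

noncomputable def f' [Finite S] (hg : Good Y g) : (∀ D, U g D) →ₙ* S where
  toFun t := Y.F (rep t)
  map_mul' t t' := by
    rw [← Y.F_mul]
    apply Y.F_eq hg
    · intro D; exact long_mul _ _
    · intro D
      rw [rep_spec]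
      show (t D).1 * (t' D).1 = ev (g D) (rep t D * rep t' D)
      rw [ev_mul, rep_spec, rep_spec]

theorem f'_surj [Finite S] (hg : Good Y g) : Surjective (Y.f' hg) := by
  intro s
  refine ⟨diag g s, ?_⟩
  show Y.F (rep (diag g s)) = s
  rw [Y.rep_diag hg, Y.F_one]

end Sys

open Classical in
/-- Reduction for `HPS`. -/
theorem hps_sys {V : PV} {S : Type} [Semigroup S] {ι : Type} [Finite ι]
    (C : ι → FinSg) (hC : ∀ i, C i ∈ BrO V) (U : ι → FinSg) (j : ∀ i, U i →ₙ* C i)
    (hj : ∀ i, Injective (j i)) (f : (∀ i, U i) →ₙ* S) (hf : Surjective f) :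
    Nonempty (Sys V S) := by
  have := Fintype.ofFinite ι
  choose x hx using hf
  choose z hz using fun i => zs_of_zeroSimple (hC i).1
  let y : ∀ i, S → C i := fun i s => j i (x s i)
  choose dg hdg hlab using fun i => br_shape (hC i) (hz i) (y i)
  exact ⟨
    { F := fun u => f fun i => ev (fun s => x s i) (u (dg i))
      Str := fun D p p' => ∀ i, dg i = D → ev (y i) p = ev (y i) p'
      F_mul := by
        intro u v
        rw [← map_mul]
        congr 1
        funext i
        exact ev_mul _ _ _
      F_one := fun s => hx s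
      Str_eqv := fun D => ⟨fun _ _ _ => rfl, fun h i hi => (h i hi).symm,
        fun h h' i hi => (h i hi).trans (h' i hi)⟩
      F_str := by
        intro D p p' h u
        congr 1
        funext i
        by_cases hi : dg i = D
        · have h1 := h i hi
          rw [hi, update_self, update_self]
          apply hj i
          rw [map_ev, map_ev]
          exact h1
        · rw [update_of_ne hi, update_of_ne hi]
      Str_zero := by
        rintro D p p' hp hp' i rfl
        have h1 : ev (y i) p = z i := by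
          by_contra h; exact hp ((hdg i p).1 h)
        have h2 : ev (y i) p' = z i := by
          by_contra h; exact hp' ((hdg i p').1 h)
        rw [h1, h2]
      Str_lab := by
        intro D
        refine (LabS.pi (fun i p p' => dg i = D → ev (y i) p = ev (y i) p') ?_)
        intro i
        by_cases hi : dg i = D
        · subst hi
          exact (hlab i).mono fun p p' h _ => h
        · exact (LabS.triv V D).mono fun p p' _ h => absurd h hi }⟩

theorem hps_bdB {V : PV} {m : ℕ} (hm : RealS V m) (B : FinSg)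
    (hB : B ∈ opH (opP (opS (BrO V)))) :
    ∃ T ∈ opP (opS (BrO V)),
      Nat.card T ≤ mS m (Nat.card B) (qS (Nat.card B)) ^ numS (Nat.card B) ∧
      ∃ f : T →ₙ* B, Surjective f := by
  obtain ⟨A, ⟨n, T0, hT0, ⟨e⟩⟩, f0, hf0⟩ := hB
  choose C hC j hj using hT0
  obtain ⟨Y⟩ := hps_sys (V := V) C hC T0 j hj (f0.comp e.symm.toMulHom)
    (hf0.comp e.symm.surjective)
  have hfin : Finite B := inferInstance
  have hreal : ∀ D : Shp B, ∃ (M : FinSg) (g : B → M), M ∈ BrO V ∧
      Nat.card M ≤ mS m (Nat.card B) (qS (Nat.card B)) ∧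
      ∀ w w', ev g w = ev g w' → (pth D w ↔ pth D w') ∧
        (pth D w → Cot D w w' ∧ Y.R D w w') := fun D =>
    hm B D (Y.R D) _ (fun _ _ s h => Y.R_snoc s h) (Y.finite_Q D) (Y.card_Q D) (Y.R_lab D)
  choose M g hM1 hM2 hM3 using hreal
  have hg : Sys.Good Y g := hM3
  have hne : ∀ D, Nonempty (Sys.U g D) := fun D => by
    obtain ⟨b⟩ := B.ne
    exact ⟨Sys.diag g b D⟩
  let T : FinSg := ⟨∀ D, Sys.U g D, inferInstance, inferInstance, inferInstance⟩
  refine ⟨T, ?_, ?_, Y.f' hg, Y.f'_surj hg⟩
  · refine pi_mem_opP (ι := Shp B)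
      (fun D => (⟨Sys.U g D, inferInstance, inferInstance, hne D⟩ : FinSg)) ?_ T (MulEquiv.refl _)
    intro D
    exact ⟨M D, hM1 D, MulMemClass.subtype (Sys.U g D), Subtype.val_injective⟩
  · refine card_pi_shp (fun D => Sys.U g D) (mS_pos _ _ _) fun D => ?_
    exact (Nat.card_le_card_of_injective _ Subtype.val_injective).trans (hM2 D)

end Pool.Agent.H814Z.Br
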