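import Pool.Agent.H814Z.Br.HS
set_option autoImplicit false

namespace Pool.Agent.H814Z.Br

open Pool.Agent.H502.Bk Pool.Agent.H502.Bk.W Function Sum

section
variable {S : Type}

/-- a vertex on a cycle -/
def cyc (E : Shp S) (v : Quotient E.2) : Prop := ∃ c, Wk E v v c

/-- reflexive reachability -/
def Reach (E : Shp S) (a b : Quotient E.2) : Prop := a = b ∨ ∃ q, Wk E a b q

/-- an edge which is not on a cycle -/
def brid (E : Shp S) (s : S) : Prop := ¬ Reach E (tgt E s) (src E s)

/-- occurrence of a letter -/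
def occ (x : S) (p : W S) : Prop := (arcs p).1 x

theorem occ_one {x s : S} : occ x (one s) ↔ x = s := Iff.rfl

theorem occ_snoc {x t : S} {w : W S} : occ x (snoc w t) ↔ occ x w ∨ x = t := Iff.rfl

theorem occ_head (w : W S) : occ (head w) w := by
  induction w with
  | one s => rfl
  | snoc w t ih => exact Or.inl ih

theorem occ_last (w : W S) : occ (last w) w := by
  cases w with
  | one s => rfl
  | snoc w t => exact Or.inr rfl

theorem wk_one {E : Shp S} {s : S} (h : E.1 s) : Wk E (src E s) (tgt E s) (one s) := ⟨h, rfl, rfl⟩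

theorem occ_tgt {E : Shp S} {x : S} {p : W S} (hp : pth E p) (hx : occ x p) :
    x = last p ∨ ∃ q, Wk E (tgt E x) (tgt E (last p)) q := by
  induction p with
  | one s => exact Or.inl hx
  | snoc w t ih =>
    obtain ⟨h1, h2, h3⟩ := pth_snoc'.1 hp
    rcases hx with hx | hx
    · right
      have h4 : Wk E (tgt E (last w)) (tgt E t) (one t) := by rw [h3]; exact wk_one h2
      rcases ih h1 hx with h | ⟨q, hq⟩
      · exact ⟨one t, by rw [h]; exact h4⟩
      · exact ⟨_, hq.mul h4⟩
    · exact Or.inl hx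

theorem occ_supp {E : Shp S} {x : S} {p : W S} (hp : pth E p) (hx : occ x p) : E.1 x :=
  ((arcs_le_iff (D := dig E) p).2 hp).1 x hx

theorem occ_src {E : Shp S} {x : S} {p : W S} (hp : pth E p) (hx : occ x p) :
    ∃ q, Wk E (src E x) (tgt E (last p)) q := by
  have h1 := wk_one (occ_supp hp hx)
  rcases occ_tgt hp hx with h | ⟨q, hq⟩
  · exact ⟨one x, by rw [← h]; exact h1⟩
  · exact ⟨_, h1.mul hq⟩

theorem occ_from {E : Shp S} {x : S} {p : W S} (hp : pth E p) (hx : occ x p) :
    x = head p ∨ ∃ q, Wk E (src E (head p)) (src E x) q := by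
  induction p with
  | one s => exact Or.inl hx
  | snoc w t ih =>
    obtain ⟨h1, h2, h3⟩ := pth_snoc'.1 hp
    rcases hx with hx | hx
    · exact ih h1 hx
    · right
      exact ⟨w, h1, rfl, by rw [hx, h3]⟩

theorem cyc_src_of {E : Shp S} {s : S} (hs : E.1 s) (h : ¬ brid E s) : cyc E (src E s) := by
  rcases not_not.1 h with h | ⟨q, hq⟩
  · exact ⟨one s, by have := wk_one hs; rwa [h] at this⟩
  · exact ⟨_, (wk_one hs).mul hq⟩

theorem cyc_tgt_of {E : Shp S} {s : S} (hs : E.1 s) (h : ¬ brid E s) : cyc E (tgt E s) := by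
  rcases not_not.1 h with h | ⟨q, hq⟩
  · exact ⟨one s, by have := wk_one hs; rwa [← h] at this⟩
  · exact ⟨_, hq.mul (wk_one hs)⟩

theorem pth_of_npw {D : Shp S} {c : W S} {k : ℕ} (h : pth D (npw c k)) : pth D c := by
  cases k with
  | zero => exact h
  | succ k => exact (pth_mul.1 h).2.1

/-- loops which are paths in as few of the shapes `Γ i` as possible -/
theorem exists_maxloop (E : Shp S) {ι : Type} [Finite ι] (Γ : ι → Shp S) {G : Type} [Group G]
    [Finite G] (g : S → G) (v : Quotient E.2) (hv : cyc E v) :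
    ∃ c, Wk E v v c ∧ ev g c = 1 ∧
      ∀ i, pth (Γ i) (c * c) → ∀ d, Wk E v v d → pth (Γ i) (d * d) := by
  obtain ⟨c1, hc1⟩ := hv
  obtain ⟨J, ⟨c0, hc0, rfl⟩, hmin⟩ :=
    (Set.toFinite {J : Set ι | ∃ c, Wk E v v c ∧ J = {i | pth (Γ i) (c * c)}}).exists_minimal
      ⟨_, c1, hc1, rfl⟩
  obtain ⟨k, hk⟩ := exists_idem_npw (ev g c0)
  refine ⟨npw c0 k, hc0.npw k, ?_, ?_⟩
  · rw [ev_npw]
    simpa using hk
  · intro i hi d hd
    obtain ⟨a1, -, a3⟩ := pth_mul.1 hi
    rw [last_npw, head_npw] at a3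
    have a4 : pth (Γ i) (c0 * c0) := pth_mul.2 ⟨pth_of_npw a1, pth_of_npw a1, a3⟩
    have a5 : Wk E v v (c0 * c0 * (d * d)) := (hc0.mul hc0).mul (hd.mul hd)
    have a6 : {i | pth (Γ i) (c0 * c0)} ≤
        {i | pth (Γ i) (c0 * c0 * (d * d) * (c0 * c0 * (d * d)))} := by
      refine hmin ⟨_, a5, rfl⟩ ?_
      intro j hj
      exact (pth_mul.1 (pth_mul.1 hj).1).1
    exact (pth_mul.1 (pth_mul.1 (a6 a4)).1).2.1

section plus
open Classical
variable (E : Shp S) (c : Quotient E.2 → W S)

/-- insertion of a loop before the letter -/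
noncomputable def Lp (s : S) : W S :=
  if cyc E (src E s) then c (src E s) * c (src E s) * one s else one s

/-- insertion of loops before and after the letter -/
noncomputable def P1 (s : S) : W S :=
  if cyc E (tgt E s) then Lp E c s * (c (tgt E s) * c (tgt E s)) else Lp E c s

/-- insertion of loops at all vertices -/
noncomputable def PP (w : W S) : W S := ev (P1 E c) w

theorem PP_snoc (w : W S) (t : S) : PP E c (snoc w t) = PP E c w * P1 E c t := rfl

theorem last_Lp (s : S) : last (Lp E c s) = s := by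
  unfold Lp
  split_ifs <;> rfl

theorem head_Lp (s : S) :
    head (Lp E c s) = if cyc E (src E s) then head (c (src E s)) else s := by
  unfold Lp
  split_ifs
  · rw [head_mul, head_mul]
  · rfl

theorem head_P1 (s : S) :
    head (P1 E c s) = if cyc E (src E s) then head (c (src E s)) else s := by
  unfold P1
  split_ifs <;> simp only [head_mul, head_Lp, *, if_true, if_false]

theorem last_P1 (s : S) :
    last (P1 E c s) = if cyc E (tgt E s) then last (c (tgt E s)) else s := by
  unfold P1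
  split_ifs
  · rw [last_mul, last_mul]
  · exact last_Lp E c s

theorem head_PP (w : W S) : head (PP E c w) = head (P1 E c (head w)) := by
  induction w with
  | one s => rfl
  | snoc w t ih => rw [PP_snoc, head_mul, ih]; rfl

theorem last_PP (w : W S) : last (PP E c w) = last (P1 E c (last w)) := by
  cases w with
  | one s => rfl
  | snoc w t => rw [PP_snoc, last_mul]; rfl

variable {E c}

theorem pth_Lp {Γ : Shp S} {s : S} (h : pth Γ (Lp E c s)) : Γ.1 s ∧ (cyc E (src E s) →
    pth Γ (c (src E s) * c (src E s)) ∧ Γ.2 (inr (last (c (src E s)))) (inl s)) := by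
  unfold Lp at h
  split_ifs at h with h1
  · obtain ⟨a1, a2, a3⟩ := pth_mul.1 h
    rw [last_mul] at a3
    exact ⟨a2, fun _ => ⟨a1, a3⟩⟩
  · exact ⟨h, fun h2 => absurd h2 h1⟩

theorem pth_P1 {Γ : Shp S} {s : S} (h : pth Γ (P1 E c s)) : Γ.1 s ∧ (cyc E (src E s) →
    pth Γ (c (src E s) * c (src E s)) ∧ Γ.2 (inr (last (c (src E s)))) (inl s)) ∧
    (cyc E (tgt E s) →
      pth Γ (c (tgt E s) * c (tgt E s)) ∧ Γ.2 (inr s) (inl (head (c (tgt E s))))) := by
  unfold P1 at h
  split_ifs at h with h1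
  · obtain ⟨a1, a2, a3⟩ := pth_mul.1 h
    rw [last_Lp, head_mul] at a3
    exact ⟨(pth_Lp a1).1, (pth_Lp a1).2, fun _ => ⟨a2, a3⟩⟩
  · exact ⟨(pth_Lp h).1, (pth_Lp h).2, fun h2 => absurd h2 h1⟩

theorem wk_P1 (hc : ∀ v, cyc E v → Wk E v v (c v)) {s : S} (hs : E.1 s) :
    Wk E (src E s) (tgt E s) (P1 E c s) := by
  have h1 : Wk E (src E s) (tgt E s) (Lp E c s) := by
    unfold Lp
    split_ifs with h
    · exact ((hc _ h).mul (hc _ h)).mul (wk_one hs)
    · exact wk_one hs
  unfold P1
  split_ifs with h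
  · exact h1.mul ((hc _ h).mul (hc _ h))
  · exact h1

theorem wk_PP (hc : ∀ v, cyc E v → Wk E v v (c v)) {w : W S} (hw : pth E w) :
    Wk E (src E (head w)) (tgt E (last w)) (PP E c w) := by
  induction w with
  | one s => exact wk_P1 hc hw
  | snoc w t ih =>
    obtain ⟨h1, h2, h3⟩ := pth_snoc'.1 hw
    have h4 := ih h1
    rw [h3] at h4
    exact h4.mul (wk_P1 hc h2)

theorem ev_PP {G : Type} [Group G] (g : S → G) (hc : ∀ v, cyc E v → ev g (c v) = 1) (w : W S) :
    ev g (PP E c w) = ev g w := by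
  have h1 : ∀ s, ev g (Lp E c s) = g s := by
    intro s
    unfold Lp
    split_ifs with h
    · rw [ev_mul, ev_mul, hc _ h, one_mul, one_mul]
      rfl
    · rfl
  have h2 : ∀ s, ev g (P1 E c s) = g s := by
    intro s
    unfold P1
    split_ifs with h
    · rw [ev_mul, ev_mul, hc _ h, one_mul, mul_one, h1]
    · exact h1 s
  induction w with
  | one s => exact h2 s
  | snoc w t ih =>
    rw [PP_snoc, ev_mul, ih, h2]
    rfl

theorem pth_PP_occ {Γ : Shp S} {p : W S} (h : pth Γ (PP E c p)) {x : S} (hx : occ x p) :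
    pth Γ (P1 E c x) := by
  induction p with
  | one s =>
    rw [occ_one.1 hx]
    exact h
  | snoc w t ih =>
    rw [PP_snoc] at h
    rcases hx with hx | hx
    · exact ih (pth_mul.1 h).1 hx
    · rw [hx]
      exact (pth_mul.1 h).2.1

theorem pth_of_PP {Γ : Shp S} {w : W S} (hw : pth E w) (h : pth Γ (PP E c w)) : pth Γ w := by
  induction w with
  | one s => exact (pth_P1 h).1
  | snoc w t ih =>
    obtain ⟨h1, h2, h3⟩ := pth_snoc'.1 hw
    rw [PP_snoc] at h
    obtain ⟨a1, a2, a3⟩ := pth_mul.1 h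
    refine pth_snoc.2 ⟨ih h1 a1, (pth_P1 a2).1, ?_⟩
    rw [last_PP, last_P1, head_P1, ← h3] at a3
    by_cases hv : cyc E (tgt E (last w))
    · rw [if_pos hv, if_pos hv] at a3
      have b1 := ((pth_P1 (pth_PP_occ a1 (occ_last w))).2.2 hv).2
      have b2 := (pth_P1 a2).2.1
      rw [← h3] at b2
      exact Γ.2.trans b1 (Γ.2.trans (Γ.2.symm a3) (b2 hv).2)
    · rwa [if_neg hv, if_neg hv] at a3

theorem pair_of_PP {Γ : Shp S} {p : W S} (hp : pth E p) (h : pth Γ (PP E c p)) {x y : S}
    (hx : occ x p) (hy : occ y p) (hxy : tgt E x = src E y) (hv : ¬ cyc E (tgt E x)) :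
    Γ.2 (inr x) (inl y) := by
  induction p with
  | one s =>
    exfalso
    obtain ⟨q, hq⟩ := occ_src hp hy
    rw [← hxy, show last (one s) = x from (occ_one.1 hx).symm] at hq
    exact hv ⟨q, hq⟩
  | snoc w t ih =>
    obtain ⟨h1, h2, h3⟩ := pth_snoc'.1 hp
    by_cases hxt : x = t
    · exfalso
      obtain ⟨q, hq⟩ := occ_src hp hy
      rw [← hxy, show last (snoc w t) = x from hxt.symm] at hq
      exact hv ⟨q, hq⟩
    have hx' : occ x w := hx.resolve_right hxt
    rw [PP_snoc] at h
    obtain ⟨a1, a2, a3⟩ := pth_mul.1 h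
    rcases hy with hy | hy
    · exact ih h1 a1 hx' hy
    · subst hy
      rcases occ_tgt h1 hx' with h4 | ⟨q, hq⟩
      · rw [last_PP, last_P1, head_P1, ← h4, ← hxy, if_neg hv, if_neg hv] at a3
        exact a3
      · exfalso
        rw [h3, ← hxy] at hq
        exact hv ⟨q, hq⟩

theorem PP_of_cond {Γ : Shp S} (hc : ∀ v, cyc E v → Wk E v v (c v))
    (hmax : ∀ v, cyc E v → pth Γ (c v * c v) → ∀ d, Wk E v v d → pth Γ (d * d))
    {p : W S} (hp : pth E p)
    (h0 : cyc E (src E (head p)) → pth Γ (c (src E (head p)) * c (src E (head p))))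
    (h1 : ∀ x, occ x p → brid E x → pth Γ (P1 E c x))
    (h2 : ∀ x y, occ x p → brid E x → occ y p → brid E y → tgt E x = src E y →
      ¬ cyc E (tgt E x) → Γ.2 (inr x) (inl y)) : pth Γ (PP E c p) := by
  have inner : ∀ s, E.1 s → ¬ brid E s →
      (cyc E (src E s) → pth Γ (c (src E s) * c (src E s))) → pth Γ (P1 E c s) := by
    intro s hs hb hg
    have a1 := cyc_src_of hs hb
    have a2 := wk_P1 hc hs
    rcases not_not.1 hb with h | ⟨q, hq⟩
    · rw [h] at a2
      exact (pth_mul.1 (hmax _ a1 (hg a1) _ a2)).1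
    · exact (pth_mul.1 (pth_mul.1 (hmax _ a1 (hg a1) _ (a2.mul hq))).1).1
  induction p with
  | one s =>
    by_cases hb : brid E s
    · exact h1 s rfl hb
    · exact inner s hp hb h0
  | snoc w t ih =>
    obtain ⟨a1, a2, a3⟩ := pth_snoc'.1 hp
    have b1 : pth Γ (PP E c w) := ih a1 h0 (fun x hx => h1 x (Or.inl hx))
      (fun x y hx hb hy => h2 x y (Or.inl hx) hb (Or.inl hy))
    have b2 := (pth_P1 (pth_PP_occ b1 (occ_last w))).2.2
    have b3 : pth Γ (P1 E c t) := by
      by_cases hb : brid E t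
      · exact h1 t (Or.inr rfl) hb
      · refine inner t a2 hb ?_
        rw [← a3]
        exact fun h => (b2 h).1
    rw [PP_snoc]
    refine pth_mul.2 ⟨b1, b3, ?_⟩
    rw [last_PP, last_P1, head_P1, ← a3]
    by_cases hv : cyc E (tgt E (last w))
    · rw [if_pos hv, if_pos hv]
      exact (pth_mul.1 (b2 hv).1).2.2
    · rw [if_neg hv, if_neg hv]
      refine h2 _ _ (Or.inl (occ_last w)) ?_ (Or.inr rfl) ?_ a3 hv
      · by_contra hb
        exact hv (cyc_tgt_of (pth_last a1) hb)
      · by_contra hb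
        exact hv (by rw [a3]; exact cyc_src_of a2 hb)

theorem PP_transfer {Γ : Shp S} (hc : ∀ v, cyc E v → Wk E v v (c v))
    (hmax : ∀ v, cyc E v → pth Γ (c v * c v) → ∀ d, Wk E v v d → pth Γ (d * d))
    {p p' : W S} (hp : pth E p) (hp' : pth E p') (hh : src E (head p) = src E (head p'))
    (hb : ∀ x, brid E x → occ x p' → occ x p) (h : pth Γ (PP E c p)) : pth Γ (PP E c p') := by
  refine PP_of_cond hc hmax hp' ?_ ?_ ?_
  · rw [← hh]
    exact fun hv => ((pth_P1 (pth_PP_occ h (occ_head p))).2.1 hv).1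
  · exact fun x hx hbx => pth_PP_occ h (hb x hbx hx)
  · exact fun x y hx hbx hy hby hxy hv => pair_of_PP hp h (hb x hbx hx) (hb y hby hy) hxy hv

theorem head_PP_eq {p p' : W S} (hp : pth E p) (hp' : pth E p')
    (hh : src E (head p) = src E (head p')) (hb : ∀ x, brid E x → occ x p → occ x p') :
    head (PP E c p) = head (PP E c p') := by
  rw [head_PP, head_PP, head_P1, head_P1, ← hh]
  by_cases hv : cyc E (src E (head p))
  · rw [if_pos hv, if_pos hv]
  · rw [if_neg hv, if_neg hv]
    have h1 : brid E (head p) := by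
      by_contra h
      exact hv (cyc_src_of (pth_head hp) h)
    rcases occ_from hp' (hb _ h1 (occ_head p)) with h | ⟨q, hq⟩
    · exact h
    · rw [← hh] at hq
      exact absurd ⟨q, hq⟩ hv

theorem last_PP_eq {p p' : W S} (hp : pth E p) (hp' : pth E p')
    (hh : tgt E (last p) = tgt E (last p')) (hb : ∀ x, brid E x → occ x p → occ x p') :
    last (PP E c p) = last (PP E c p') := by
  rw [last_PP, last_PP, last_P1, last_P1, ← hh]
  by_cases hv : cyc E (tgt E (last p))
  · rw [if_pos hv, if_pos hv]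
  · rw [if_neg hv, if_neg hv]
    have h1 : brid E (last p) := by
      by_contra h
      exact hv (cyc_tgt_of (pth_last hp) h)
    rcases occ_tgt hp' (hb _ h1 (occ_last p)) with h | ⟨q, hq⟩
    · exact h
    · rw [← hh] at hq
      exact absurd ⟨q, hq⟩ hv

theorem ev_count {G : Type} [Group G] (a : G) {x : S} (hx : brid E x) {p : W S} (hp : pth E p) :
    ev (fun s => if x = s then a else 1) p = if occ x p then a else 1 := by
  induction p with
  | one s =>
    show (if x = s then a else 1) = _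
    by_cases h : x = s
    · rw [if_pos h, if_pos (occ_one.2 h)]
    · rw [if_neg h, if_neg (fun h' => h (occ_one.1 h'))]
  | snoc w t ih =>
    obtain ⟨h1, h2, h3⟩ := pth_snoc'.1 hp
    show ev _ w * (if x = t then a else 1) = _
    rw [ih h1]
    by_cases h : x = t
    · have h4 : ¬ occ x w := by
        intro h5
        apply hx
        rw [← h] at h3
        rcases occ_tgt h1 h5 with h6 | ⟨q, hq⟩
        · left
          rw [← h3, ← h6]
        · right
          exact ⟨q, by rw [← h3]; exact hq⟩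
      rw [if_neg h4, if_pos h, if_pos (occ_snoc.2 (Or.inr h)), one_mul]
    · rw [if_neg h, mul_one]
      by_cases h4 : occ x w
      · rw [if_pos h4, if_pos (occ_snoc.2 (Or.inl h4))]
      · rw [if_neg h4, if_neg (fun h' => (occ_snoc.1 h').elim h4 h)]

end plus

end

theorem hsp_labS (V : PV) {m0 : ℕ} (hm0 : 2 ≤ m0) (hV : V.mem (Multiplicative (ZMod m0)))
    {S : Type} [Semigroup S] [Finite S] {ι : Type} [Finite ι] (C : ι → Type)
    [∀ i, Semigroup (C i)] (z : ∀ i, C i) (y : ∀ i, S → C i) (Γ : ι → Shp S)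
    (hΓ : ∀ i w, ev (y i) w ≠ z i ↔ pth (Γ i) w)
    (hL : ∀ i, LabS V (Γ i) (fun p p' => ev (y i) p = ev (y i) p'))
    (hy : ∀ w w' : W S, (∀ i, ev (y i) w = ev (y i) w') → val w = val w') (E : Shp S) :
    ∃ P : W S → W S, (∀ w t, P (snoc w t) = P w * P (one t)) ∧
      LabS V E (fun p p' => val (P p) = val (P p')) ∧
      ∀ w, pth E w → (∀ i, pth (Γ i) w → E ≤ Γ i) → val (P w) = val w := by
  classical
  choose G iG g hG hl using hL
  have hfin : ∀ i, Finite (G i) := fun i => V.fin _ (hG i)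
  have hex : ∀ v : Quotient E.2, ∃ c : W S, cyc E v → Wk E v v c ∧
      ev (fun s i => g i s) c = 1 ∧
      ∀ i, pth (Γ i) (c * c) → ∀ d, Wk E v v d → pth (Γ i) (d * d) := by
    intro v
    by_cases hv : cyc E v
    · obtain ⟨c, hc⟩ := exists_maxloop E Γ (fun s i => g i s) v hv
      exact ⟨c, fun _ => hc⟩
    · exact ⟨one (Sum.elim id id (Quotient.out v)), fun h => absurd h hv⟩
  choose c hc using hex
  have hc1 : ∀ v, cyc E v → Wk E v v (c v) := fun v hv => (hc v hv).1
  have hc2 : ∀ i v, cyc E v → ev (g i) (c v) = 1 := fun i v hv => by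
    rw [← ev_pi G g, (hc v hv).2.1]
    rfl
  have hc3 : ∀ i v, cyc E v → pth (Γ i) (c v * c v) → ∀ d, Wk E v v d → pth (Γ i) (d * d) :=
    fun i v hv => (hc v hv).2.2 i
  have hz0 : ∀ (i : ι) (u : W S), ¬ pth (Γ i) u → ev (y i) u = z i := by
    intro i u hu
    rwa [← hΓ, not_not] at hu
  refine ⟨PP E c, fun _ _ => rfl, ?_, ?_⟩
  · let lb : S → ((∀ i, G i) × (S → Multiplicative (ZMod m0))) := fun s =>
      (fun i => g i s, fun x => if x = s then Multiplicative.ofAdd (1 : ZMod m0) else 1)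
    refine ⟨((∀ i, G i) × (S → Multiplicative (ZMod m0))), inferInstance, lb,
      V.prod _ _ (V.pi _ hG) (V.pi _ fun _ => hV), ?_⟩
    intro p p' hp hp' hco he
    obtain ⟨hh, hla⟩ := cot_iff.1 hco
    have hcomp : ∀ i, ev (g i) p = ev (g i) p' := by
      intro i
      have e1 := map_ev ((Pi.evalMulHom G i).comp (MulHom.fst _ _)) lb p
      have e2 := map_ev ((Pi.evalMulHom G i).comp (MulHom.fst _ _)) lb p'
      rw [he] at e1
      exact e1.symm.trans e2
    have hout : ∀ x : S, brid E x → (occ x p ↔ occ x p') := by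
      intro x hx
      have e1 := map_ev ((Pi.evalMulHom (fun _ : S => Multiplicative (ZMod m0)) x).comp
        (MulHom.snd _ _)) lb p
      have e2 := map_ev ((Pi.evalMulHom (fun _ : S => Multiplicative (ZMod m0)) x).comp
        (MulHom.snd _ _)) lb p'
      rw [he] at e1
      have e4 : ev (fun s => if x = s then Multiplicative.ofAdd (1 : ZMod m0) else 1) p =
          ev (fun s => if x = s then Multiplicative.ofAdd (1 : ZMod m0) else 1) p' :=
        e1.symm.trans e2
      rw [ev_count _ hx hp, ev_count _ hx hp'] at e4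
      have hne : Multiplicative.ofAdd (1 : ZMod m0) ≠ 1 := by
        have : Fact (1 < m0) := ⟨hm0⟩
        intro h
        have h1 : (1 : ZMod m0) = 0 := h
        exact one_ne_zero h1
      constructor
      · intro h1
        by_contra h2
        rw [if_pos h1, if_neg h2] at e4
        exact hne e4
      · intro h1
        by_contra h2
        rw [if_neg h2, if_pos h1] at e4
        exact hne e4.symm
    apply hy
    intro i
    by_cases h1 : pth (Γ i) (PP E c p)
    · have h2 : pth (Γ i) (PP E c p') :=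
        PP_transfer hc1 (hc3 i) hp hp' hh (fun x hx => (hout x hx).2) h1
      refine hl i _ _ h1 h2 ?_ ?_
      · unfold Cot
        rw [head_PP_eq hp hp' hh (fun x hx => (hout x hx).1),
          last_PP_eq hp hp' hla (fun x hx => (hout x hx).1)]
        exact Cot.refl _ _
      · rw [ev_PP _ (hc2 i), ev_PP _ (hc2 i), hcomp]
    · have h2 : ¬ pth (Γ i) (PP E c p') := fun h2 =>
        h1 (PP_transfer hc1 (hc3 i) hp' hp hh.symm (fun x hx => (hout x hx).1) h2)
      rw [hz0 i _ h1, hz0 i _ h2]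
  · intro w hw hfull
    apply hy
    intro i
    by_cases h4 : pth (Γ i) w
    · have h5 := hfull i h4
      have h6 := wk_PP hc1 hw
      exact hl i _ _ (pth_mono h5 h6.1) h4 ((cot_iff.2 ⟨h6.2.1, h6.2.2⟩).mono h5)
        (ev_PP _ (hc2 i) w)
    · have h5 : ¬ pth (Γ i) (PP E c w) := fun h5 => h4 (pth_of_PP hw h5)
      rw [hz0 i _ h4, hz0 i _ h5]

theorem hsp_bdB {V : PV} {m : ℕ} (hm : RealS V m) (B : FinSg)
    (hB : B ∈ opH (opS (opP (BrO V)))) :
    ∃ U ∈ opS (opP (BrO V)),
      Nat.card U ≤ mS m (Nat.card B) (Nat.card B) ^ numS (Nat.card B) ∧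
      ∃ f : U →ₙ* B, Surjective f := by
  classical
  obtain ⟨A, ⟨A', ⟨n, T, hT, ⟨e⟩⟩, j, hj⟩, f, hf⟩ := hB
  choose z hz using fun i => zs_of_zeroSimple (hT i).1
  choose x hx using hf
  let y : ∀ i, B → (T i).carrier := fun i s => (e (j (x s)) : ∀ i, T i) i
  have hyev : ∀ i (w : W B), ev (y i) w = (e (j (ev x w)) : ∀ i, T i) i := by
    intro i w
    induction w with
    | one s => rfl
    | snoc w s ih =>
      show ev (y i) w * y i s = (e (j (ev x w * x s)) : ∀ i, T i) i
      rw [ih, map_mul, map_mul]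
      rfl
  have hvalx : ∀ w : W B, val w = f (ev x w) := by
    intro w
    rw [map_ev f x w]
    unfold val
    congr 1
    funext s
    exact (hx s).symm
  have hy : ∀ w w' : W B, (∀ i, ev (y i) w = ev (y i) w') → val w = val w' := by
    intro w w' h
    have h1 : (e (j (ev x w)) : ∀ i, T i) = e (j (ev x w')) := by
      funext i
      rw [← hyev, ← hyev]
      exact h i
    have h2 : ev x w = ev x w' := hj (e.injective h1)
    rw [hvalx, hvalx, h2]
  choose Γ hΓ hL using fun i => br_shape (hT i) (hz i) (y i)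
  have hn0 : 0 < Nat.card B := Nat.card_pos
  have main : ∃ (M : Shp B → FinSg) (g : ∀ E, B → M E), (∀ E, M E ∈ BrO V) ∧
      (∀ E, Nat.card (M E) ≤ mS m (Nat.card B) (Nat.card B)) ∧
      ∀ w w' : W B, (∀ E, ev (g E) w = ev (g E) w') → val w = val w' := by
    rcases PV.cyc V with htriv | ⟨m0, hm0', hV⟩
    · have hsub : Subsingleton (Quotient (⊤ : Setoid (W B))) := ⟨fun a b =>
        Quotient.inductionOn₂ a b fun p p' => Quotient.sound trivial⟩
      have hcard : Nat.card (Quotient (⊤ : Setoid (W B))) ≤ Nat.card B :=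
        (Finite.card_le_one_iff_subsingleton.2 hsub).trans hn0
      choose M g h1 h2 h3 using fun E : Shp B => hm B E ⊤ (Nat.card B) (fun _ _ _ _ => trivial)
        inferInstance hcard ((LabS.triv V E).mono fun _ _ _ => trivial)
      refine ⟨M, g, h1, h2, fun w w' h => hy w w' fun i => ?_⟩
      obtain ⟨h4, h5⟩ := h3 (Γ i) w w' (h _)
      by_cases hp : pth (Γ i) w
      · obtain ⟨G, _, lb, hG, h7⟩ := hL i
        have := htriv G hG
        exact h7 w w' hp (h4.1 hp) (h5 hp).1 (Subsingleton.elim _ _)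
      · have hp' : ¬ pth (Γ i) w' := fun h => hp (h4.2 h)
        rw [← hΓ, not_not] at hp hp'
        rw [hp, hp']
    · have hex : ∀ E : Shp B, ∃ (M : FinSg) (g : B → M), M ∈ BrO V ∧
          Nat.card M ≤ mS m (Nat.card B) (Nat.card B) ∧
          ∀ w w', ev g w = ev g w' → (pth E w ↔ pth E w') ∧
            (pth E w → (∀ i, pth (Γ i) w → E ≤ Γ i) → (∀ i, pth (Γ i) w' → E ≤ Γ i) →
              val w = val w') := by
        intro E
        obtain ⟨P, hP1, hP2, hP3⟩ := hsp_labS V hm0' hV (fun i => (T i).carrier) z y Γ hΓ hL hy E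
        let R : Setoid (W B) := Setoid.ker fun p => val (P p)
        have hq : Injective (Quotient.lift (fun p => val (P p)) (fun _ _ h => h) :
            Quotient R → B) := by
          intro a b
          refine Quotient.inductionOn₂ a b fun p p' h => ?_
          exact Quotient.sound h
        obtain ⟨M, g, a1, a2, a3⟩ := hm B E R (Nat.card B)
          (fun p p' s h => by
            show val (P (snoc p s)) = val (P (snoc p' s))
            rw [hP1, hP1 p', val_mul, val_mul, show val (P p) = val (P p') from h])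
          (Finite.of_injective _ hq) (Nat.card_le_card_of_injective _ hq) hP2
        refine ⟨M, g, a1, a2, fun w w' h => ⟨(a3 w w' h).1, fun hw b1 b2 => ?_⟩⟩
        have b3 : val (P w) = val (P w') := ((a3 w w' h).2 hw).2
        rw [← hP3 w hw b1, b3, hP3 w' ((a3 w w' h).1.1 hw) b2]
      choose M g h1 h2 h3 using hex
      refine ⟨M, g, h1, h2, fun w w' h => ?_⟩
      have a1 : pth (shp w) w := (shp_le_iff w).1 le_rfl
      have a2 : pth (shp w') w := (h3 (shp w') w w' (h _)).1.2 ((shp_le_iff w').1 le_rfl)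
      refine (h3 (shp w) w w' (h _)).2 a1 (fun i hi => (shp_le_iff w).2 hi) (fun i hi => ?_)
      exact (shp_le_iff w).2 (pth_mono ((shp_le_iff w').2 hi) a2)
  obtain ⟨M, g, h1, h2, h3⟩ := main
  let PS : FinSg := ⟨∀ E, M E, inferInstance, inferInstance, inferInstance⟩
  have hne : Nonempty (Shp B) := ⟨⊤⟩
  have hPS : PS ∈ opP (BrO V) := pi_mem_opP M h1 PS (MulEquiv.refl _)
  obtain ⟨U, ⟨j', hj'⟩, b1, b2⟩ := div_of_key B PS (fun s E => g E s) (fun w w' h => by
    refine h3 w w' fun E => ?_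
    rw [← ev_pi (fun E => (M E).carrier) g w E, ← ev_pi (fun E => (M E).carrier) g w' E]
    exact congrFun h E)
  exact ⟨U, ⟨PS, hPS, j', hj'⟩, b1.trans (card_pi_shp (fun E => (M E).carrier) (mS_pos _ _ _) h2),
    b2⟩

end Pool.Agent.H814Z.Br
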