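import Pool.Agent.H814Z.Br.HP
import Pool.Agent.H814Z.Br.HPS
import Pool.Agent.H814Z.Br.SHPS
import Pool.Agent.H814Z.Br.HSP
import Pool.Agent.H814Z.Br.DecS
set_option autoImplicit false

namespace Pool.Agent.H814Z.Br

open Pool.Agent.H502.Bk Function

/-- `BrO V` is completely solvable -/
theorem brandt_completely_solvable (V : PV) (hV : V.DecUniv) (l : List Op) : DecClass (app l (BrO V)) := by
  obtain ⟨m, hm⟩ := realS V
  let Φ := BrO V
  have hid : Primrec fun n : ℕ => n := Primrec.id
  have c1 : Primrec fun n => mS m n n := prim_mS m hid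
  have c2 : Primrec fun n => mS m n (qS n) ^ numS n :=
    prim_pow (prim_mS m (prim_add hid (prim_mul (prim_pow hid (prim_pow hid prim_numS)) hid)))
      prim_numS
  have c3 : Primrec fun n => mS m n (n + n * n) ^ numS n :=
    prim_pow (prim_mS m (prim_add hid (prim_mul hid hid))) prim_numS
  have c4 : Primrec fun n => mS m n n ^ numS n := prim_pow c1 prim_numS
  have iΦ : IsoC Φ := IsoC_BrO V
  have d0 : DecClass Φ := dec_BrO V hV
  have dH : DecClass (opH Φ) := by rw [h_eqB]; exact dec_union_one d0
  have dS : DecClass (opS Φ) := dec_SB V hV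
  have dP : DecClass (opP Φ) := dec_P d0 iΦ
  have dPH : DecClass (opP (opH Φ)) := dec_P dH (IsoC_H _)
  have dPS : DecClass (opP (opS Φ)) := dec_P dS (IsoC_S _)
  have dHS : DecClass (opH (opS Φ)) := dec_H dS (IsoC_S _) c1.to_comp (hs_bdB hm)
  have dPHS : DecClass (opP (opH (opS Φ))) := dec_P dHS (IsoC_H _)
  have dHP : DecClass (opH (opP Φ)) := dec_H dP (IsoC_P _) comp_hpB' hp_bdB
  have dHPS : DecClass (opH (opP (opS Φ))) := dec_H dPS (IsoC_P _) c2.to_comp (hps_bdB hm)
  have gSP : ∀ X : Set FinSg, DecClass (opP (opS X)) → DecClass (opS (opP X)) := by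
    intro X hX
    have e : opS (opP X) = opS (opP (opS X)) := by
      apply subset_antisymm
      · exact opS_mono (opP_mono (opS_incr X))
      · exact (opS_mono (PS_le X)).trans (opS_idem _).subset
    rw [e]
    refine dec_S hX (IsoC_P _) comp_spB ?_
    intro B hB
    rw [← e] at hB
    exact sp_bd X B hB
  have dSP : DecClass (opS (opP Φ)) := gSP Φ dPS
  have dSPHS : DecClass (opS (opP (opH (opS Φ)))) := by
    apply gSP
    have e : opS (opH (opS Φ)) = opH (opS Φ) := by
      apply subset_antisymm
      · refine (SH_le _).trans ?_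
        rw [opS_idem]
      · exact opS_incr _
    rw [e]
    exact dPHS
  have dSHPS : DecClass (opS (opH (opP (opS Φ)))) :=
    dec_S dHPS (IsoC_H _) c3.to_comp (shps_bdB hm)
  have dHSP : DecClass (opH (opS (opP Φ))) :=
    dec_H dSP (IsoC_S _) c4.to_comp (hsp_bdB hm)
  -- the laws of the operator calculus
  have HPH : ∀ X, opH (opP (opH X)) = opH (opP X) := fun X => subset_antisymm
    ((opH_mono (PH_le X)).trans (opH_idem _).subset) (opH_mono (opP_mono (opH_incr X)))
  have HSH : ∀ X, opH (opS (opH X)) = opH (opS X) := fun X => subset_antisymm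
    ((opH_mono (SH_le X)).trans (opH_idem _).subset) (opH_mono (opS_mono (opH_incr X)))
  have SPS : ∀ X, opS (opP (opS X)) = opS (opP X) := fun X => subset_antisymm
    ((opS_mono (PS_le X)).trans (opS_idem _).subset) (opS_mono (opP_mono (opS_incr X)))
  have SHS : ∀ X, opS (opH (opS X)) = opH (opS X) := fun X => subset_antisymm
    ((SH_le _).trans (opH_mono (opS_idem X).subset)) (opS_incr _)
  have PHP : ∀ X, opP (opH (opP X)) = opH (opP X) := fun X => subset_antisymm
    ((PH_le _).trans (opH_mono (opP_idem X).subset)) (opP_incr _)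
  have PSP : ∀ X, opP (opS (opP X)) = opS (opP X) := fun X => subset_antisymm
    ((PS_le _).trans (opS_mono (opP_idem X).subset)) (opP_incr _)
  have HSPH : ∀ X, opH (opS (opP (opH X))) = opH (opS (opP X)) := fun X => subset_antisymm
    ((opH_mono ((opS_mono (PH_le X)).trans (SH_le _))).trans (opH_idem _).subset)
    (opH_mono (opS_mono (opP_mono (opH_incr X))))
  have SPH : opS (opP (opH Φ)) = opS (opP Φ) := by
    rw [← SPS (opH Φ), sh_eqB, SPS]
  let L : Set (Set FinSg) := {Φ, opH Φ, opS Φ, opP Φ, opP (opH Φ), opP (opS Φ), opH (opS Φ),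
    opP (opH (opS Φ)), opH (opP Φ), opH (opP (opS Φ)), opS (opP Φ), opS (opH (opP (opS Φ))),
    opS (opP (opH (opS Φ))), opH (opS (opP Φ))}
  have hL : ∀ X ∈ L, DecClass X := by
    intro X hX
    simp only [L, Set.mem_insert_iff, Set.mem_singleton_iff] at hX
    rcases hX with h | h | h | h | h | h | h | h | h | h | h | h | h | h <;> rw [h] <;> assumption
  have hH : ∀ X ∈ L, opH X ∈ L := by
    intro X hX
    simp only [L, Set.mem_insert_iff, Set.mem_singleton_iff] at hX
    rcases hX with h | h | h | h | h | h | h | h | h | h | h | h | h | h <;> rw [h]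
    · simp [L]
    · rw [opH_idem]; simp [L]
    · simp [L]
    · simp [L]
    · rw [HPH]; simp [L]
    · simp [L]
    · rw [opH_idem]; simp [L]
    · rw [HPH]; simp [L]
    · rw [opH_idem]; simp [L]
    · rw [opH_idem]; simp [L]
    · simp [L]
    · rw [HSH, SPS]; simp [L]
    · rw [HSPH, SPS]; simp [L]
    · rw [opH_idem]; simp [L]
  have hS : ∀ X ∈ L, opS X ∈ L := by
    intro X hX
    simp only [L, Set.mem_insert_iff, Set.mem_singleton_iff] at hX
    rcases hX with h | h | h | h | h | h | h | h | h | h | h | h | h | h <;> rw [h]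
    · simp [L]
    · rw [sh_eqB]; simp [L, Φ]
    · rw [opS_idem]; simp [L]
    · simp [L]
    · rw [SPH]; simp [L]
    · rw [SPS]; simp [L]
    · rw [SHS]; simp [L]
    · simp [L]
    · rw [shp_eqB]; simp [L, Φ]
    · simp [L]
    · rw [opS_idem]; simp [L]
    · rw [opS_idem]; simp [L]
    · rw [opS_idem]; simp [L]
    · rw [SHS]; simp [L]
  have hP : ∀ X ∈ L, opP X ∈ L := by
    intro X hX
    simp only [L, Set.mem_insert_iff, Set.mem_singleton_iff] at hX
    rcases hX with h | h | h | h | h | h | h | h | h | h | h | h | h | h <;> rw [h]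
    · simp [L]
    · simp [L]
    · simp [L]
    · rw [opP_idem]; simp [L]
    · rw [opP_idem]; simp [L]
    · rw [opP_idem]; simp [L]
    · simp [L]
    · rw [opP_idem]; simp [L]
    · rw [PHP]; simp [L]
    · rw [PHP]; simp [L]
    · rw [PSP]; simp [L]
    · have e : opP (opS (opH (opP (opS Φ)))) = opS (opH (opP (opS Φ))) := subset_antisymm
        ((PS_le _).trans (opS_mono (PHP _).subset)) (opP_incr _)
      rw [e]; simp [L]
    · rw [PSP]; simp [L]
    · have e : opP (opH (opS (opP Φ))) = opH (opS (opP Φ)) := subset_antisymm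
        ((PH_le _).trans (opH_mono (PSP _).subset)) (opP_incr _)
      rw [e]; simp [L]
  have key : app l Φ ∈ L := by
    induction l with
    | nil => simp [L, app]
    | cons o l ih =>
      cases o
      · exact hH _ ih
      · exact hS _ ih
      · exact hP _ ih
  exact hL _ key

end Pool.Agent.H814Z.Br
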