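import Pool.Agent.H814Z.Br.Real
set_option autoImplicit false

namespace Pool.Agent.H814Z.Br

open Pool.Agent.H502.Bk Pool.Agent.H502.Bk.W Function Sum

theorem val_mul {S : Type} [Semigroup S] (u v : W S) : val (u * v) = val u * val v :=
  ev_mul _ u v

/-- the subsemigroup generated by a family -/
def genS {S M : Type} [Semigroup M] (g : S → M) : Subsemigroup M where
  carrier := {r | ∃ w : W S, ev g w = r}
  mul_mem' := by
    rintro _ _ ⟨w, rfl⟩ ⟨w', rfl⟩
    exact ⟨w * w', ev_mul g w w'⟩

/-- a family in `M` whose relations hold in `B` exhibits `B` as a divisor of `M` -/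
theorem div_of_key (B M : FinSg) (g : B → M)
    (key : ∀ w w' : W B, ev g w = ev g w' → val w = val w') :
    ∃ U : FinSg, (∃ j : U →ₙ* M, Injective j) ∧ Nat.card U ≤ Nat.card M ∧
      ∃ f : U →ₙ* B, Surjective f := by
  classical
  have hUne : Nonempty (genS g) := ⟨⟨ev g (one (Classical.arbitrary B)), ⟨_, rfl⟩⟩⟩
  refine ⟨⟨genS g, inferInstance, inferInstance, hUne⟩, ⟨MulMemClass.subtype (genS g),
    Subtype.coe_injective⟩, ?_, ?_⟩
  · exact Nat.card_le_card_of_injective (fun u : genS g => (u : M)) Subtype.coe_injective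
  · let wd : genS g → W B := fun u => Classical.choose u.2
    have hwd : ∀ u : genS g, ev g (wd u) = u := fun u => Classical.choose_spec u.2
    refine ⟨⟨fun u => val (wd u), ?_⟩, ?_⟩
    · intro u v
      have h1 : val (wd (u * v)) = val (wd u * wd v) := by
        apply key
        rw [ev_mul, hwd, hwd, hwd]
        rfl
      show val (wd (u * v)) = val (wd u) * val (wd v)
      rw [h1]
      exact ev_mul _ _ _
    · intro b
      refine ⟨⟨ev g (one b), ⟨_, rfl⟩⟩, ?_⟩
      show val (wd ⟨ev g (one b), ⟨_, rfl⟩⟩) = b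
      have h1 : val (wd ⟨ev g (one b), ⟨_, rfl⟩⟩) = val (one b) := by
        apply key
        rw [hwd]
      rw [h1]
      rfl

theorem hs_bdB {V : PV} {m : ℕ} (hm : RealS V m) (B : FinSg) (hB : B ∈ opH (opS (BrO V))) :
    ∃ U ∈ opS (BrO V), Nat.card U ≤ mS m (Nat.card B) (Nat.card B) ∧
      ∃ f : U →ₙ* B, Surjective f := by
  classical
  obtain ⟨A, ⟨C, hC, j, hj⟩, f, hf⟩ := hB
  obtain ⟨z, hz⟩ := zs_of_zeroSimple hC.1
  choose x hx using hf
  have hfv : ∀ w : W B, f (ev x w) = val w := by
    intro w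
    rw [map_ev]
    unfold val
    congr 1
    funext s
    exact hx s
  have hjv : ∀ w : W B, j (ev x w) = ev (fun s => j (x s)) w := fun w => map_ev j x w
  have hval : ∀ w w' : W B, ev (fun s => j (x s)) w = ev (fun s => j (x s)) w' →
      val w = val w' := by
    intro w w' h
    rw [← hjv, ← hjv] at h
    rw [← hfv, ← hfv, hj h]
  obtain ⟨D, hD, hL⟩ := br_shape hC hz (fun s => j (x s))
  let R : Setoid (W B) := Setoid.ker val
  have hq : Injective (Quotient.lift val (fun _ _ h => h) : Quotient R → B) := by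
    intro a b
    refine Quotient.inductionOn₂ a b fun p p' h => ?_
    exact Quotient.sound h
  have hfin : Finite (Quotient R) := Finite.of_injective _ hq
  have hcardq : Nat.card (Quotient R) ≤ Nat.card B := Nat.card_le_card_of_injective _ hq
  obtain ⟨M, g, hM, hMc, hMp⟩ := hm B D R (Nat.card B)
    (fun p p' s h => by
      show val p * s = val p' * s
      rw [show val p = val p' from h]) hfin hcardq (hL.mono fun p p' h => hval p p' h)
  have key : ∀ w w' : W B, ev g w = ev g w' → val w = val w' := by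
    intro w w' h
    obtain ⟨h1, h2⟩ := hMp w w' h
    by_cases hp : pth D w
    · exact (h2 hp).2
    · have hp' : ¬ pth D w' := fun h3 => hp (h1.2 h3)
      apply hval
      rw [← hD, not_not] at hp hp'
      rw [hp, hp']
  obtain ⟨U, ⟨j', hj'⟩, h1, h2⟩ := div_of_key B M g key
  exact ⟨U, ⟨M, hM, j', hj'⟩, h1.trans hMc, h2⟩

end Pool.Agent.H814Z.Br
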