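import Pool.Agent.H814Z.Br.Shape
set_option autoImplicit false

namespace Pool.Agent.H814Z.Br

open Pool.Agent.H502.Bk Pool.Agent.H502.Bk.W Function Sum

section
variable {S : Type}

/-- source vertex -/
def src (D : Shp S) (s : S) : Quotient D.2 := Quotient.mk D.2 (inl s)

/-- target vertex -/
def tgt (D : Shp S) (s : S) : Quotient D.2 := Quotient.mk D.2 (inr s)

theorem pth_snoc' {D : Shp S} {w : W S} {t : S} :
    pth D (snoc w t) ↔ pth D w ∧ D.1 t ∧ tgt D (last w) = src D t := by
  rw [pth_snoc]
  exact and_congr Iff.rfl (and_congr Iff.rfl Quotient.eq.symm)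

theorem pth_mul' {D : Shp S} {u v : W S} :
    pth D (u * v) ↔ pth D u ∧ pth D v ∧ tgt D (last u) = src D (head v) := by
  rw [pth_mul]
  exact and_congr Iff.rfl (and_congr Iff.rfl Quotient.eq.symm)

theorem cot_iff {D : Shp S} {p p' : W S} :
    Cot D p p' ↔ src D (head p) = src D (head p') ∧ tgt D (last p) = tgt D (last p') :=
  and_congr Quotient.eq.symm Quotient.eq.symm

/-- a nonempty walk from `a` to `b` -/
def Wk (D : Shp S) (a b : Quotient D.2) (p : W S) : Prop :=
  pth D p ∧ src D (head p) = a ∧ tgt D (last p) = b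

theorem Wk.mul {D : Shp S} {a b c : Quotient D.2} {p q : W S} (hp : Wk D a b p)
    (hq : Wk D b c q) : Wk D a c (p * q) :=
  ⟨pth_mul'.2 ⟨hp.1, hq.1, hp.2.2.trans hq.2.1.symm⟩, by rw [head_mul]; exact hp.2.1,
    by rw [last_mul]; exact hq.2.2⟩

theorem Wk.npw {D : Shp S} {a : Quotient D.2} {c : W S} (hc : Wk D a a c) (k : ℕ) :
    Wk D a a (npw c k) := by
  induction k with
  | zero => exact hc
  | succ k ih => exact ih.mul hc

theorem head_npw (c : W S) (k : ℕ) : head (npw c k) = head c := by
  induction k with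
  | zero => rfl
  | succ k ih =>
    show head (npw c k * c) = _
    rw [head_mul, ih]

theorem last_npw (c : W S) (k : ℕ) : last (npw c k) = last c := by
  cases k with
  | zero => rfl
  | succ k => exact last_mul _ _

theorem exists_loop_one {D : Shp S} {G : Type} [Group G] [Finite G] (g : S → G)
    {a : Quotient D.2} {c : W S} (hc : Wk D a a c) : ∃ c', Wk D a a c' ∧ ev g c' = 1 := by
  obtain ⟨k, hk⟩ := exists_idem_npw (ev g c)
  refine ⟨npw c k, hc.npw k, ?_⟩
  rw [ev_npw]
  simpa using hk

/-- the subdivided digraph -/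
def subD (D : Shp S) : Dig (Quotient D.2 ⊕ S) :=
  (Sum.elim (fun _ => True) D.1, fun a b => match a, b with
    | inl v, inr s => src D s = v
    | inr s, inl v => tgt D s = v
    | _, _ => False)

def app1 : Option (W S) → S → W S
  | none, s => one s
  | some p, s => snoc p s

def pre : Option (W S) → W S → W S
  | none, p => p
  | some c, p => c * p

/-- projection of words of the subdivided digraph -/
def pr {X : Type} (cv : X → Option (W S)) : W (X ⊕ S) → Option (W S)
  | one (inl v) => cv v
  | one (inr s) => some (one s)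
  | snoc w (inl _) => pr cv w
  | snoc w (inr s) => some (app1 (pr cv w) s)

/-- lift of words to the subdivided digraph -/
def lf (D : Shp S) : W S → W (Quotient D.2 ⊕ S)
  | one s => snoc (snoc (one (inl (src D s))) (inr s)) (inl (tgt D s))
  | snoc p t => snoc (snoc (lf D p) (inr t)) (inl (tgt D t))

theorem last_lf (D : Shp S) (p : W S) : last (lf D p) = inl (tgt D (last p)) := by
  cases p <;> rfl

theorem head_lf (D : Shp S) (p : W S) : head (lf D p) = inl (src D (head p)) := by
  induction p with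
  | one s => rfl
  | snoc p t ih => exact ih

theorem path_lf {D : Shp S} {p : W S} (hp : pth D p) : path (subD D) (lf D p) := by
  induction p with
  | one s => exact ⟨⟨trivial, trivial, hp, rfl⟩, hp, trivial, rfl⟩
  | snoc p t ih =>
    obtain ⟨h1, h2, h3⟩ := pth_snoc'.1 hp
    refine ⟨⟨ih h1, ?_⟩, h2, trivial, rfl⟩
    rw [last_lf]
    exact ⟨trivial, h2, h3.symm⟩

theorem lab_lf {D : Shp S} {G : Type} [Group G]
    (lb : Quotient D.2 ⊕ S → Quotient D.2 ⊕ S → G) {p : W S} (hp : pth D p) :
    lab lb (lf D p) =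
      ev (fun s => lb (inl (src D s)) (inr s) * lb (inr s) (inl (tgt D s))) p := by
  induction p with
  | one s =>
    show 1 * lb (inl (src D s)) (inr s) * lb (inr s) (inl (tgt D s)) = _
    rw [one_mul]
    rfl
  | snoc p t ih =>
    obtain ⟨h1, h2, h3⟩ := pth_snoc'.1 hp
    show lab lb (lf D p) * lb (last (lf D p)) (inr t) * lb (inr t) (inl (tgt D t)) = _
    rw [ih h1, last_lf, h3, mul_assoc]
    rfl

theorem pr_lf (D : Shp S) (cv : Quotient D.2 → Option (W S)) (p : W S) :
    pr cv (lf D p) = some (pre (cv (src D (head p))) p) := by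
  induction p with
  | one s =>
    show some (app1 (cv (src D s)) s) = some (pre (cv (src D s)) (one s))
    cases cv (src D s) <;> rfl
  | snoc p t ih =>
    show some (app1 (pr cv (lf D p)) t) = some (pre (cv (src D (head p))) (snoc p t))
    rw [ih]
    cases cv (src D (head p)) <;> rfl

theorem pr_inv {D : Shp S} {G : Type} [Group G] (g : S → G) (cv : Quotient D.2 → Option (W S))
    (hcv : ∀ v c, cv v = some c → Wk D v v c ∧ ev g c = 1) (w : W (Quotient D.2 ⊕ S))
    (hw : path (subD D) w) :
    (pr cv w = none ∧ ∃ v, w = one (inl v) ∧ cv v = none) ∨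
      ∃ p, pr cv w = some p ∧ Wk D (Sum.elim id (src D) (head w)) (Sum.elim id (tgt D) (last w)) p ∧
        ev g p = Sum.elim (fun _ => 1) g (head w) * lab (fun _ b => Sum.elim (fun _ => 1) g b) w := by
  induction w with
  | one a =>
    rcases a with v | s
    · cases h : cv v with
      | none => exact Or.inl ⟨h, v, rfl, h⟩
      | some c =>
        refine Or.inr ⟨c, h, (hcv v c h).1, ?_⟩
        rw [(hcv v c h).2]
        exact (mul_one (1 : G)).symm
    · exact Or.inr ⟨one s, rfl, ⟨hw, rfl, rfl⟩, (mul_one _).symm⟩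
  | snoc w a ih =>
    obtain ⟨h1, h2, h3, h4⟩ := hw
    right
    rcases ih h1 with ⟨e1, v, rfl, e2⟩ | ⟨p, e1, e2, e3⟩
    · rcases a with u | t
      · exact h4.elim
      · refine ⟨one t, ?_, ⟨h3, h4, rfl⟩, ?_⟩
        · show some (app1 (pr cv (one (inl v))) t) = _
          rw [e1]
          rfl
        · show g t = 1 * (1 * g t)
          rw [one_mul, one_mul]
    · rcases a with u | t
      · refine ⟨p, e1, ⟨e2.1, e2.2.1, ?_⟩, ?_⟩
        · rw [e2.2.2]
          generalize last w = b at h4
          rcases b with b | b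
          · exact h4.elim
          · exact h4
        · rw [e3]
          show _ = _ * (_ * 1)
          rw [mul_one]
          rfl
      · refine ⟨snoc p t, ?_, ⟨pth_snoc'.2 ⟨e2.1, h3, ?_⟩, e2.2.1, rfl⟩, ?_⟩
        · show some (app1 (pr cv w) t) = _
          rw [e1]
          rfl
        · rw [e2.2.2]
          generalize last w = b at h4
          rcases b with b | b
          · exact h4.symm
          · exact h4.elim
        · show ev g p * g t = _ * (_ * g t)
          rw [e3, mul_assoc]
          rfl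

end

theorem gB_mono {m n n' q q' : ℕ} (hm : 0 < m) (hn : n ≤ n') (hq : 0 < q) (h : q ≤ q') :
    gB m n q ≤ gB m n' q' := by
  have h1 : q ^ q ≤ q' ^ q' :=
    (Nat.pow_le_pow_left h q).trans (Nat.pow_le_pow_right (lt_of_lt_of_le hq h) h)
  have h2 : 0 < q' ^ q' := Nat.pow_pos (lt_of_lt_of_le hq h)
  unfold gB
  exact Nat.mul_le_mul (Nat.pow_le_pow_right hm (Nat.mul_le_mul hn hn))
    ((Nat.pow_le_pow_left h1 n).trans (Nat.pow_le_pow_right h2 hn))

/-- bound for the order of the group -/
def gS (m n q : ℕ) : ℕ := gB m (3 * n) (3 * n * (q + 1))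

theorem rcvS (V : PV) : ∃ m : ℕ, 0 < m ∧ ∀ {S : Type} [Finite S] [Nonempty S] (D : Shp S)
    (R : Setoid (W S)), (∀ p p' s, R p p' → R (snoc p s) (snoc p' s)) →
    Finite (Quotient R) → LabS V D (fun p p' => R p p') →
    LabSB V D (fun p p' => R p p') (gS m (Nat.card S) (Nat.card (Quotient R))) := by
  classical
  obtain ⟨m, hm0, hm⟩ := rcv V
  refine ⟨m, hm0, ?_⟩
  intro S _ _ D R hsnoc hfin hLab
  obtain ⟨G, iG, g, hG, hR⟩ := hLab
  have : Finite G := V.fin G hG
  have hex : ∀ v : Quotient D.2, ∃ o : Option (W S), (o = none → ¬ ∃ c, Wk D v v c) ∧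
      ∀ c, o = some c → Wk D v v c ∧ ev g c = 1 := by
    intro v
    by_cases h : ∃ c, Wk D v v c
    · obtain ⟨c, hc⟩ := h
      obtain ⟨c', hc'⟩ := exists_loop_one g hc
      refine ⟨some c', fun h => by simp at h, fun c'' h => ?_⟩
      rw [← Option.some.inj h]
      exact hc'
    · exact ⟨none, fun _ => h, fun c h => by simp at h⟩
  choose cv hcv0 hcv using hex
  let code : W (Quotient D.2 ⊕ S) → (Quotient D.2 ⊕ S) × Option (Quotient R) :=
    fun w => (last w, (pr cv w).map (Quotient.mk R))
  let R' : Setoid (W (Quotient D.2 ⊕ S)) := Setoid.ker code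
  have hinj : Injective (Quotient.lift code (fun _ _ h => h) : Quotient R' → _) := by
    intro a b
    refine Quotient.inductionOn₂ a b fun p p' h => ?_
    exact Quotient.sound h
  have hfin' : Finite (Quotient R') := Finite.of_injective _ hinj
  have hc1 : Nat.card (Quotient D.2 ⊕ S) ≤ 3 * Nat.card S := by
    rw [Nat.card_sum]
    have h1 : Nat.card (Quotient D.2) ≤ Nat.card S + Nat.card S := by
      rw [← Nat.card_sum]
      exact Nat.card_le_card_of_surjective _ Quotient.mk_surjective
    omega
  have hc2 : Nat.card (Quotient R') ≤ 3 * Nat.card S * (Nat.card (Quotient R) + 1) := by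
    refine (Nat.card_le_card_of_injective _ hinj).trans ?_
    rw [Nat.card_prod]
    have h1 : Nat.card (Option (Quotient R)) = Nat.card (Quotient R) + 1 := by
      have := Fintype.ofFinite (Quotient R)
      simp [Nat.card_eq_fintype_card]
    rw [h1]
    exact Nat.mul_le_mul_right _ hc1
  have hpos : 0 < Nat.card (Quotient R') := by
    have : Nonempty (Quotient R') := ⟨Quotient.mk R' (one (inr (Classical.arbitrary S)))⟩
    exact Nat.card_pos
  have hLab' : Lab V (subD D) (fun p p' => R' p p') := by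
    refine ⟨G, iG, fun _ b => Sum.elim (fun _ => 1) g b, hG, ?_⟩
    intro w w' hw hw' hh hl he
    refine Prod.ext hl ?_
    show (pr cv w).map (Quotient.mk R) = (pr cv w').map (Quotient.mk R)
    rcases pr_inv g cv hcv w hw with ⟨e1, v, e2, e3⟩ | ⟨p, e1, e2, e3⟩
    · rcases pr_inv g cv hcv w' hw' with ⟨f1, -⟩ | ⟨p', f1, f2, f3⟩
      · rw [e1, f1]
      · exfalso
        rw [← hh, ← hl, e2] at f2
        exact hcv0 v e3 ⟨p', f2⟩
    · rcases pr_inv g cv hcv w' hw' with ⟨f1, v, f2, f3⟩ | ⟨p', f1, f2, f3⟩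
      · exfalso
        rw [hh, hl, f2] at e2
        exact hcv0 v f3 ⟨p, e2⟩
      · rw [e1, f1]
        show some (Quotient.mk R p) = some (Quotient.mk R p')
        congr 1
        apply Quotient.sound
        refine hR p p' e2.1 f2.1 (cot_iff.2 ⟨?_, ?_⟩) ?_
        · rw [e2.2.1, f2.2.1, hh]
        · rw [e2.2.2, f2.2.2, hl]
        · rw [e3, f3, hh, he]
  have hsn' : ∀ p p' s, R' p p' → R' (snoc p s) (snoc p' s) := by
    intro w w' a h
    have h2 : (pr cv w).map (Quotient.mk R) = (pr cv w').map (Quotient.mk R) :=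
      congrArg Prod.snd h
    refine Prod.ext rfl ?_
    rcases a with v | s
    · exact h2
    · show some (Quotient.mk R (app1 (pr cv w) s)) = some (Quotient.mk R (app1 (pr cv w') s))
      congr 1
      apply Quotient.sound
      generalize pr cv w = o at h2
      generalize pr cv w' = o' at h2
      rcases o with _ | p <;> rcases o' with _ | p'
      · exact R.refl _
      · simp at h2
      · simp at h2
      · exact hsnoc p p' s (Quotient.exact (Option.some.inj h2))
  obtain ⟨G', iG', lb, hG', hcard, hR'⟩ := hm (subD D) R' (fun p p' h => congrArg Prod.fst h)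
    hsn' hfin' hLab'
  refine ⟨G', iG', fun s => lb (inl (src D s)) (inr s) * lb (inr s) (inl (tgt D s)), hG',
    hcard.trans (gB_mono hm0 hc1 hpos hc2), ?_⟩
  intro p p' hp hp' hc he
  obtain ⟨hc1, hc2⟩ := cot_iff.1 hc
  have h1 : R' (lf D p) (lf D p') := by
    refine hR' _ _ (path_lf hp) (path_lf hp') ?_ ?_ ?_
    · rw [head_lf, head_lf, hc1]
    · rw [last_lf, last_lf, hc2]
    · rw [lab_lf lb hp, lab_lf lb hp', he]
  have h2 : (pr cv (lf D p)).map (Quotient.mk R) = (pr cv (lf D p')).map (Quotient.mk R) :=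
    congrArg Prod.snd h1
  rw [pr_lf, pr_lf] at h2
  have h3 : R (pre (cv (src D (head p))) p) (pre (cv (src D (head p'))) p') :=
    Quotient.exact (Option.some.inj h2)
  have h4 : ∀ q, pth D q → R (pre (cv (src D (head q))) q) q := by
    intro q hq
    cases h : cv (src D (head q)) with
    | none => exact R.refl _
    | some c =>
      obtain ⟨a1, a2⟩ := hcv _ c h
      have a3 : Wk D _ _ (c * q) := a1.mul ⟨hq, rfl, rfl⟩
      refine hR (c * q) q a3.1 hq (cot_iff.2 ⟨a3.2.1, a3.2.2⟩) ?_
      rw [ev_mul, a2, one_mul]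
  exact R.trans (R.symm (h4 p hp)) (R.trans h3 (h4 p' hp'))

/-- bound for the realising Brandt semigroup -/
def mS (m n q : ℕ) : ℕ := (n + n) * (gS m n q * (n + n)) + 1

/-- realisation of right congruences in Brandt semigroups over `V` of bounded size -/
def RealS (V : PV) (m : ℕ) : Prop :=
  ∀ (S : Type) [Finite S] [Nonempty S] (D : Shp S) (R : Setoid (W S)) (q : ℕ),
    (∀ p p' s, R p p' → R (snoc p s) (snoc p' s)) →
    Finite (Quotient R) → Nat.card (Quotient R) ≤ q → LabS V D (fun p p' => R p p') →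
    ∃ (M : FinSg) (g : S → M), M ∈ BrO V ∧ Nat.card M ≤ mS m (Nat.card S) q ∧
      ∀ w w', ev g w = ev g w' → (pth D w ↔ pth D w') ∧ (pth D w → Cot D w w' ∧ R w w')

theorem realS (V : PV) : ∃ m, RealS V m := by
  obtain ⟨m, hm0, hm⟩ := rcvS V
  refine ⟨m, ?_⟩
  intro S _ _ D R q h2 h3 hq h4
  obtain ⟨M, g, a1, a2, a3⟩ := real_outS V (hm D R h2 h3 h4)
  refine ⟨M, g, a1, a2.trans ?_, a3⟩
  have hn : 0 < Nat.card S := Nat.card_pos
  have h5 : gS m (Nat.card S) (Nat.card (Quotient R)) ≤ gS m (Nat.card S) q :=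
    gB_mono hm0 le_rfl (by positivity) (Nat.mul_le_mul_left _ (by omega))
  unfold mS
  exact Nat.add_le_add_right (Nat.mul_le_mul_left _ (Nat.mul_le_mul_right _ h5)) 1

theorem prim_pow {f g : ℕ → ℕ} (hf : Primrec f) (hg : Primrec g) :
    Primrec fun n => f n ^ g n := J11149.h1_prim_pow hf hg

theorem prim_mul {f g : ℕ → ℕ} (hf : Primrec f) (hg : Primrec g) :
    Primrec fun n => f n * g n := Primrec.nat_mul.comp hf hg

theorem prim_add {f g : ℕ → ℕ} (hf : Primrec f) (hg : Primrec g) :
    Primrec fun n => f n + g n := Primrec.nat_add.comp hf hg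

theorem prim_mS (m : ℕ) {q : ℕ → ℕ} (hq : Primrec q) : Primrec fun n => mS m n (q n) := by
  have hid : Primrec fun n : ℕ => n := Primrec.id
  have h2 := prim_add hid hid
  have h3 := prim_mul (Primrec.const 3) hid
  have h4 := prim_mul h3 (prim_add hq (Primrec.const 1))
  have h5 : Primrec fun n => gS m n (q n) :=
    prim_mul (prim_pow (Primrec.const m) (prim_mul h3 h3)) (prim_pow (prim_pow h4 h4) h3)
  exact prim_add (prim_mul h2 (prim_mul h5 h2)) (Primrec.const 1)

theorem prim_numS : Primrec numS := by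
  have hid : Primrec fun n : ℕ => n := Primrec.id
  have h2 := prim_add hid hid
  exact prim_mul (prim_pow (Primrec.const 2) hid) (prim_pow (Primrec.const 2) (prim_mul h2 h2))

theorem mS_pos (m n q : ℕ) : 0 < mS m n q := Nat.succ_pos _

/-- cardinality of a product over the shapes -/
theorem card_pi_shp {S : Type} [Finite S] (X : Shp S → Type) [∀ D, Finite (X D)] {b : ℕ}
    (hb : 0 < b) (h : ∀ D, Nat.card (X D) ≤ b) :
    Nat.card (∀ D, X D) ≤ b ^ numS (Nat.card S) := by
  have := Fintype.ofFinite (Shp S)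
  rw [Nat.card_pi]
  refine (Finset.prod_le_pow_card _ _ _ fun D _ => h D).trans ?_
  rw [Finset.card_univ, ← Nat.card_eq_fintype_card]
  exact Nat.pow_le_pow_right hb (card_shp S)

end Pool.Agent.H814Z.Br
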