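import Pool.Agent.H814Z.Br.Basic
set_option autoImplicit false

namespace Pool.Agent.H814Z.Br

open Pool.Agent.H502.Bk Pool.Agent.H502.Bk.W Function Sum

/-- A shape: a set of admissible letters (edges), and an identification of their end points
(`inl s` is the source and `inr s` the target of the edge `s`). -/
abbrev Shp (S : Type) := (S → Prop) × Setoid (S ⊕ S)

section shapes
variable {S : Type}

/-- the line digraph of a shape -/
def dig (D : Shp S) : Dig S := (D.1, fun s t => D.2 (inr s) (inl t))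

/-- paths of a shape -/
def pth (D : Shp S) (w : W S) : Prop := path (dig D) w

/-- coterminal words -/
def Cot (D : Shp S) (p p' : W S) : Prop :=
  D.2 (inl (head p)) (inl (head p')) ∧ D.2 (inr (last p)) (inr (last p'))

/-- the least shape above a digraph -/
def cl (E : Dig S) : Shp S :=
  (E.1, Relation.EqvGen.setoid fun a b => ∃ s t, E.2 s t ∧ a = inr s ∧ b = inl t)

theorem cl_le_iff {E : Dig S} {D : Shp S} : cl E ≤ D ↔ E ≤ dig D := by
  constructor
  · rintro ⟨h1, h2⟩
    refine ⟨h1, fun s t hst => ?_⟩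
    exact h2 (Relation.EqvGen.rel _ _ ⟨s, t, hst, rfl, rfl⟩)
  · rintro ⟨h1, h2⟩
    refine ⟨h1, ?_⟩
    refine Setoid.eqvGen_le ?_
    rintro a b ⟨s, t, hst, rfl, rfl⟩
    exact h2 s t hst

/-- the least shape in which `w` is a path -/
def shp (w : W S) : Shp S := cl (arcs w)

theorem shp_le_iff {D : Shp S} (w : W S) : shp w ≤ D ↔ pth D w :=
  cl_le_iff.trans (arcs_le_iff w)

theorem dig_mono {E D : Shp S} (h : E ≤ D) : dig E ≤ dig D :=
  ⟨h.1, fun _ _ hst => h.2 hst⟩

theorem pth_mono {E D : Shp S} (h : E ≤ D) {w : W S} (hw : pth E w) : pth D w :=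
  path_mono (dig_mono h) hw

theorem Cot.mono {E D : Shp S} (h : E ≤ D) {p p' : W S} (hc : Cot E p p') : Cot D p p' :=
  ⟨h.2 hc.1, h.2 hc.2⟩

theorem Cot.refl (D : Shp S) (p : W S) : Cot D p p := ⟨D.2.refl _, D.2.refl _⟩

theorem Cot.symm {D : Shp S} {p p' : W S} (h : Cot D p p') : Cot D p' p :=
  ⟨D.2.symm h.1, D.2.symm h.2⟩

theorem Cot.trans {D : Shp S} {p p' p'' : W S} (h : Cot D p p') (h' : Cot D p' p'') :
    Cot D p p'' := ⟨D.2.trans h.1 h'.1, D.2.trans h.2 h'.2⟩

theorem pth_head {D : Shp S} {w : W S} (h : pth D w) : D.1 (head w) := by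
  induction w with
  | one s => exact h
  | snoc w t ih => exact ih h.1

theorem pth_last {D : Shp S} {w : W S} (h : pth D w) : D.1 (last w) := path_last (D := dig D) h

theorem pth_one {D : Shp S} {s : S} : pth D (one s) ↔ D.1 s := Iff.rfl

theorem pth_snoc {D : Shp S} {w : W S} {t : S} :
    pth D (snoc w t) ↔ pth D w ∧ D.1 t ∧ D.2 (inr (last w)) (inl t) := by
  constructor
  · rintro ⟨h1, -, h2, h3⟩
    exact ⟨h1, h2, h3⟩
  · rintro ⟨h1, h2, h3⟩
    exact ⟨h1, pth_last h1, h2, h3⟩

theorem pth_mul {D : Shp S} {u v : W S} :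
    pth D (u * v) ↔ pth D u ∧ pth D v ∧ D.2 (inr (last u)) (inl (head v)) := by
  unfold pth
  rw [path_mul]
  constructor
  · rintro ⟨h1, ⟨-, -, h2⟩, h3⟩
    exact ⟨h1, h3, h2⟩
  · rintro ⟨h1, h3, h2⟩
    exact ⟨h1, ⟨pth_last h1, pth_head h3, h2⟩, h3⟩

/-- bound for the number of shapes -/
def numS (n : ℕ) : ℕ := 2 ^ n * 2 ^ ((n + n) * (n + n))

theorem setoid_inj (X : Type) : Injective (fun r : Setoid X => (fun a b => r a b : X → X → Prop)) := by
  intro r r' h
  ext a b
  exact iff_of_eq (congrFun (congrFun h a) b)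

instance finite_setoid (X : Type) [Finite X] : Finite (Setoid X) :=
  Finite.of_injective _ (setoid_inj X)

theorem card_shp (S : Type) [Finite S] : Nat.card (Shp S) ≤ numS (Nat.card S) := by
  classical
  have := Fintype.ofFinite S
  rw [Nat.card_prod]
  have h1 : Nat.card (S → Prop) = 2 ^ Nat.card S := by
    simp [Nat.card_eq_fintype_card]
  have h2 : Nat.card (Setoid (S ⊕ S)) ≤ 2 ^ ((Nat.card S + Nat.card S) * (Nat.card S + Nat.card S)) := by
    refine (Nat.card_le_card_of_injective _ (setoid_inj (S ⊕ S))).trans (le_of_eq ?_)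
    simp only [Nat.card_eq_fintype_card, Fintype.card_fun, Fintype.card_prop, Fintype.card_sum]
    rw [pow_mul]
  rw [h1]
  exact Nat.mul_le_mul_left _ h2

theorem eq_top_of_pth [Nonempty S] {D : Shp S} (h1 : ∀ s, pth D (one s))
    (h2 : ∀ s t, pth D (snoc (one s) t)) (E : Shp S) : E ≤ D := by
  obtain ⟨s0⟩ := ‹Nonempty S›
  have h3 : ∀ s t, D.2 (inr s) (inl t) := fun s t => (pth_snoc.1 (h2 s t)).2.2
  have h4 : ∀ a, D.2 a (inl s0) := by
    rintro (s | s)
    · exact D.2.trans (D.2.symm (h3 s0 s)) (h3 s0 s0)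
    · exact h3 s s0
  exact ⟨fun s _ => h1 s, fun a b _ => D.2.trans (h4 a) (D.2.symm (h4 b))⟩

end shapes

/-- the relation `R` on the paths of `D` is implied by coterminality and equality of the labels,
for a labelling of the letters by a group in `V` -/
def LabS (V : PV) {S : Type} (D : Shp S) (R : W S → W S → Prop) : Prop :=
  ∃ (G : Type) (_ : Group G) (g : S → G), V.mem G ∧
    ∀ p p', pth D p → pth D p' → Cot D p p' → ev g p = ev g p' → R p p'

/-- the same with a bound for the order of the group -/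
def LabSB (V : PV) {S : Type} (D : Shp S) (R : W S → W S → Prop) (B : ℕ) : Prop :=
  ∃ (G : Type) (_ : Group G) (g : S → G), V.mem G ∧ Nat.card G ≤ B ∧
    ∀ p p', pth D p → pth D p' → Cot D p p' → ev g p = ev g p' → R p p'

theorem LabS.mono {V : PV} {S : Type} {D : Shp S} {R R' : W S → W S → Prop} (h : LabS V D R)
    (hR : ∀ p p', R p p' → R' p p') : LabS V D R' := by
  obtain ⟨G, _, g, h1, h2⟩ := h
  exact ⟨G, _, g, h1, fun p p' a b c d => hR _ _ (h2 p p' a b c d)⟩

theorem ev_pi {S ι : Type} (G : ι → Type) [∀ i, Semigroup (G i)] (g : ∀ i, S → G i) (p : W S)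
    (i : ι) : ev (fun s i => g i s) p i = ev (g i) p :=
  map_ev (Pi.evalMulHom G i) _ p

theorem LabS.pi {V : PV} {S : Type} {D : Shp S} {ι : Type} [Finite ι]
    (R : ι → W S → W S → Prop) (h : ∀ i, LabS V D (R i)) :
    LabS V D (fun p p' => ∀ i, R i p p') := by
  choose G iG g hG hR using h
  refine ⟨∀ i, G i, inferInstance, fun s i => g i s, V.pi G hG, ?_⟩
  intro p p' a b c d i
  refine hR i p p' a b c ?_
  rw [← ev_pi G g p i, ← ev_pi G g p' i, d]

theorem LabS.triv (V : PV) {S : Type} (D : Shp S) : LabS V D (fun _ _ => True) :=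
  ⟨Unit, inferInstance, fun _ => 1, V.unit, fun _ _ _ _ _ _ => trivial⟩

/-- the shape of a family of elements of a Brandt semigroup -/
theorem br_shape {V : PV} {C : FinSg} (hC : C ∈ BrO V) {z : C} (h : ZS z) {S : Type}
    (y : S → C) : ∃ D : Shp S, (∀ w, ev y w ≠ z ↔ pth D w) ∧
      LabS V D (fun p p' => ev y p = ev y p') := by
  obtain ⟨G, iG, hG, γ, sr, tg, h1, h2, h3⟩ := br_coord V h hC.2.2 (mem_BrO.1 hC).2
  let D : Shp S := (fun s => y s ≠ z, Setoid.ker (Sum.elim (fun s => sr (y s)) (fun s => tg (y s))))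
  have key : ∀ w, (ev y w ≠ z ↔ pth D w) ∧ (ev y w ≠ z → sr (ev y w) = sr (y (head w)) ∧
      tg (ev y w) = tg (y (last w)) ∧ γ (ev y w) = ev (fun s => γ (y s)) w) := by
    intro w
    induction w with
    | one s => exact ⟨Iff.rfl, fun _ => ⟨rfl, rfl, rfl⟩⟩
    | snoc w t ih =>
      have e : ev y (snoc w t) = ev y w * y t := rfl
      rw [e, pth_snoc]
      constructor
      · constructor
        · intro hne
          have a1 := h.mul_left_ne hne
          have a2 := h.mul_right_ne hne
          refine ⟨ih.1.1 a1, a2, ?_⟩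
          show tg (y (last w)) = sr (y t)
          rw [← (ih.2 a1).2.1]
          exact (h1 _ _ a1 a2).1 hne
        · rintro ⟨a1, a2, a3⟩
          have a4 := ih.1.2 a1
          refine (h1 _ _ a4 a2).2 ?_
          rw [(ih.2 a4).2.1]
          exact a3
      · intro hne
        have a1 := h.mul_left_ne hne
        obtain ⟨b1, b2, b3⟩ := h2 _ _ hne
        refine ⟨b1.trans (ih.2 a1).1, b2, ?_⟩
        rw [b3, (ih.2 a1).2.2]
        rfl
  refine ⟨D, fun w => (key w).1, G, iG, fun s => γ (y s), hG, ?_⟩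
  intro p p' hp hp' hc he
  have a1 := (key p).1.2 hp
  have a2 := (key p').1.2 hp'
  obtain ⟨b1, b2, b3⟩ := (key p).2 a1
  obtain ⟨c1, c2, c3⟩ := (key p').2 a2
  refine h3 _ _ a1 a2 ?_ ?_ ?_
  · rw [b1, c1]; exact hc.1
  · rw [b2, c2]; exact hc.2
  · rw [b3, c3, he]

section realOut
open Classical

variable {S G : Type} [Group G]

/-- generators of the Brandt semigroup of a labelled shape -/
noncomputable def brG (D : Shp S) (g : S → G) (s : S) : BR G (Quotient D.2) :=
  if D.1 s then RM.el _ (Quotient.mk D.2 (inl s)) (g s) (Quotient.mk D.2 (inr s)) else RM.zero _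

theorem br_ev (D : Shp S) (g : S → G) (w : W S) :
    (pth D w → ev (brG D g) w = RM.el _ (Quotient.mk D.2 (inl (head w))) (ev g w)
      (Quotient.mk D.2 (inr (last w)))) ∧ (¬ pth D w → ev (brG D g) w = RM.zero _) := by
  induction w with
  | one s =>
    constructor
    · intro h
      show brG D g s = _
      exact if_pos h
    · intro h
      show brG D g s = _
      exact if_neg h
  | snoc w t ih =>
    rw [pth_snoc]
    constructor
    · rintro ⟨h1, h2, h3⟩
      show ev (brG D g) w * brG D g t = _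
      rw [ih.1 h1]
      have h4 : brG D g t = RM.el _ (Quotient.mk D.2 (inl t)) (g t) (Quotient.mk D.2 (inr t)) :=
        if_pos h2
      have h5 : Quotient.mk D.2 (inr (last w)) = Quotient.mk D.2 (inl t) := Quotient.sound h3
      rw [h4, h5, RM.el_mul_el (idP_self _), mul_one]
      rfl
    · intro h
      show ev (brG D g) w * brG D g t = _
      by_cases h1 : pth D w
      · rw [ih.1 h1]
        by_cases h2 : D.1 t
        · have h4 : brG D g t = RM.el _ (Quotient.mk D.2 (inl t)) (g t)
              (Quotient.mk D.2 (inr t)) := if_pos h2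
          have h5 : Quotient.mk D.2 (inr (last w)) ≠ Quotient.mk D.2 (inl t) :=
            fun h5 => h ⟨h1, h2, Quotient.exact h5⟩
          rw [h4, RM.el_mul_el_none (idP_ne h5)]
        · have h4 : brG D g t = RM.zero _ := if_neg h2
          rw [h4, RM.mul_zero']
      · rw [ih.2 h1, RM.zero_mul']

end realOut

theorem real_outS (V : PV) {S : Type} [Finite S] [Nonempty S] {D : Shp S} {R : W S → W S → Prop}
    {B : ℕ} (h : LabSB V D R B) : ∃ (M : FinSg) (g : S → M), M ∈ BrO V ∧
      Nat.card M ≤ (Nat.card S + Nat.card S) * (B * (Nat.card S + Nat.card S)) + 1 ∧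
      ∀ w w', ev g w = ev g w' → (pth D w ↔ pth D w') ∧ (pth D w → Cot D w w' ∧ R w w') := by
  obtain ⟨G, _, g, hG, hc, hR⟩ := h
  have : Finite G := V.fin G hG
  have hne : Nonempty (Quotient D.2) := ⟨Quotient.mk D.2 (inl (Classical.arbitrary S))⟩
  refine ⟨BRF G (Quotient D.2), brG D g, BRF_mem V hG _, ?_, ?_⟩
  · show Nat.card (RM G (Quotient D.2) (Quotient D.2) (idP G (Quotient D.2))) ≤ _
    rw [RM.card]
    have h1 : Nat.card (Quotient D.2) ≤ Nat.card S + Nat.card S := by
      rw [← Nat.card_sum]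
      exact Nat.card_le_card_of_surjective _ Quotient.mk_surjective
    have h4 := Nat.mul_le_mul h1 (Nat.mul_le_mul hc h1)
    omega
  · intro w w' h
    have key : ∀ {w w' : W S}, ev (brG D g) w = ev (brG D g) w' → pth D w → pth D w' := by
      intro w w' h hw
      by_contra hw'
      rw [(br_ev D g w).1 hw, (br_ev D g w').2 hw'] at h
      exact el_ne h
    refine ⟨⟨key h, key (w := w') (w' := w) h.symm⟩, fun hw => ?_⟩
    have hw' := key h hw
    have h' : ev (brG D g) w = ev (brG D g) w' := h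
    rw [(br_ev D g w).1 hw, (br_ev D g w').1 hw'] at h'
    obtain ⟨h1, h2, h3⟩ := el_inj h'
    have hc : Cot D w w' := ⟨Quotient.exact h1, Quotient.exact h3⟩
    exact ⟨hc, hR w w' hw hw' hc h2⟩

end Pool.Agent.H814Z.Br
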